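import Mathlib

/-! Calculus in the plane `ℂ = ℝ²`: first order derivatives, the divergence theorem for compactly supported
vector fields, and transported functions which tend to zero. -/

set_option autoImplicit false

namespace Pool.Agent.Lib.MP_6c0de8_an

open MeasureTheory Filter Topology Complex

/-- the derivative `∂₁ f` of a function on the plane `ℂ = ℝ²` -/
noncomputable def d1 (f : ℂ → ℝ) (z : ℂ) : ℝ := fderiv ℝ f z 1

/-- the derivative `∂₂ f` of a function on the plane `ℂ = ℝ²` -/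
noncomputable def d2 (f : ℂ → ℝ) (z : ℂ) : ℝ := fderiv ℝ f z I

/-- `f` is differentiable at `z` with first order derivatives `a` and `b` -/
def HasD (f : ℂ → ℝ) (a b : ℝ) (z : ℂ) : Prop :=
  HasFDerivAt f (a • reCLM + b • imCLM) z

theorem HasD.d1 {f : ℂ → ℝ} {a b : ℝ} {z : ℂ} (h : HasD f a b z) : d1 f z = a := by
  unfold MP_6c0de8_an.d1
  rw [HasFDerivAt.fderiv h]
  simp

theorem HasD.d2 {f : ℂ → ℝ} {a b : ℝ} {z : ℂ} (h : HasD f a b z) : d2 f z = b := by
  unfold MP_6c0de8_an.d2
  rw [HasFDerivAt.fderiv h]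
  simp

theorem fderiv_eq (f : ℂ → ℝ) (z w : ℂ) : fderiv ℝ f z w = w.re * d1 f z + w.im * d2 f z := by
  have h : w = w.re • (1 : ℂ) + w.im • I := by
    apply Complex.ext <;> simp
  conv_lhs => rw [h]
  rw [map_add, map_smul, map_smul]
  rfl

theorem hasD_of_diff {f : ℂ → ℝ} {z : ℂ} (h : DifferentiableAt ℝ f z) :
    HasD f (d1 f z) (d2 f z) z := by
  unfold HasD
  refine h.hasFDerivAt.congr_fderiv ?_
  ext w
  rw [fderiv_eq]
  simp
  ring

theorem HasD.congr {f g : ℂ → ℝ} {a b : ℝ} {z : ℂ} (h : HasD f a b z) (e : g =ᶠ[𝓝 z] f) :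
    HasD g a b z := HasFDerivAt.congr_of_eventuallyEq h e

theorem HasD.cast {f : ℂ → ℝ} {a b a' b' : ℝ} {z : ℂ} (h : HasD f a b z) (ha : a' = a)
    (hb : b' = b) : HasD f a' b' z := by rw [ha, hb]; exact h

theorem hasD_const (c : ℝ) (z : ℂ) : HasD (fun _ => c) 0 0 z := by
  unfold HasD
  simpa using hasFDerivAt_const c z

theorem hasD_re (z : ℂ) : HasD (fun w => w.re) 1 0 z := by
  unfold HasD
  exact (reCLM.hasFDerivAt).congr_fderiv (by simp)

theorem hasD_im (z : ℂ) : HasD (fun w => w.im) 0 1 z := by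
  unfold HasD
  exact (imCLM.hasFDerivAt).congr_fderiv (by simp)

theorem HasD.add {f g : ℂ → ℝ} {a b c d : ℝ} {z : ℂ} (hf : HasD f a b z) (hg : HasD g c d z) :
    HasD (fun w => f w + g w) (a + c) (b + d) z := by
  unfold HasD
  exact (HasFDerivAt.add hf hg).congr_fderiv (by module)

theorem HasD.sub {f g : ℂ → ℝ} {a b c d : ℝ} {z : ℂ} (hf : HasD f a b z) (hg : HasD g c d z) :
    HasD (fun w => f w - g w) (a - c) (b - d) z := by
  unfold HasD
  exact (HasFDerivAt.sub hf hg).congr_fderiv (by module)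

theorem HasD.neg {f : ℂ → ℝ} {a b : ℝ} {z : ℂ} (hf : HasD f a b z) :
    HasD (fun w => - f w) (-a) (-b) z := by
  unfold HasD
  exact (HasFDerivAt.neg hf).congr_fderiv (by module)

theorem HasD.mul {f g : ℂ → ℝ} {a b c d : ℝ} {z : ℂ} (hf : HasD f a b z) (hg : HasD g c d z) :
    HasD (fun w => f w * g w) (f z * c + g z * a) (f z * d + g z * b) z := by
  unfold HasD
  exact (HasFDerivAt.mul hf hg).congr_fderiv (by module)

theorem HasD.comp {f : ℂ → ℝ} {a b : ℝ} {z : ℂ} {φ : ℝ → ℝ} {φ' : ℝ} (hφ : HasDerivAt φ φ' (f z))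
    (hf : HasD f a b z) : HasD (fun w => φ (f w)) (φ' * a) (φ' * b) z := by
  unfold HasD
  exact (hφ.comp_hasFDerivAt z hf).congr_fderiv (by module)

theorem HasD.inv {f : ℂ → ℝ} {a b : ℝ} {z : ℂ} (hf : HasD f a b z) (h0 : f z ≠ 0) :
    HasD (fun w => (f w)⁻¹) (-a / f z ^ 2) (-b / f z ^ 2) z := by
  refine (HasD.comp (hasDerivAt_inv h0) hf).cast ?_ ?_ <;> field_simp

theorem HasD.differentiableAt {f : ℂ → ℝ} {a b : ℝ} {z : ℂ} (hf : HasD f a b z) :
    DifferentiableAt ℝ f z := HasFDerivAt.differentiableAt hf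

theorem continuous_d1 {f : ℂ → ℝ} (hf : ContDiff ℝ 1 f) : Continuous (d1 f) :=
  (hf.continuous_fderiv one_ne_zero).clm_apply continuous_const

theorem continuous_d2 {f : ℂ → ℝ} (hf : ContDiff ℝ 1 f) : Continuous (d2 f) :=
  (hf.continuous_fderiv one_ne_zero).clm_apply continuous_const

/-- the divergence theorem for compactly supported functions -/
theorem integral_fderiv_eq_zero {X : ℂ → ℝ} (hX : ContDiff ℝ 1 X) (hs : HasCompactSupport X)
    (v : ℂ) : ∫ z, fderiv ℝ X z v = 0 := by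
  have hc : Continuous fun z => fderiv ℝ X z v :=
    (hX.continuous_fderiv one_ne_zero).clm_apply continuous_const
  have hcs : HasCompactSupport fun z => fderiv ℝ X z v := hs.fderiv_apply ℝ v
  have h := integral_mul_fderiv_eq_neg_fderiv_mul_of_integrable (μ := (volume : Measure ℂ))
    (f := fun _ : ℂ => (1 : ℝ)) (g := X) (v := v) (by simp)
    (by simpa using hc.integrable_of_hasCompactSupport hcs)
    (by simpa using hX.continuous.integrable_of_hasCompactSupport hs)
    (fun x _ => differentiableAt_const _) (fun x _ => hX.differentiable one_ne_zero x)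
  simpa using h

/-- vector fields `(V₁, V₂)` with constant divergence `k` and compactly supported `h` -/
theorem integral_div {V1 V2 h : ℂ → ℝ} {k : ℝ} (hV1 : ContDiff ℝ 1 V1) (hV2 : ContDiff ℝ 1 V2)
    (hh : ContDiff ℝ 1 h) (hs : HasCompactSupport h) (hdiv : ∀ z, d1 V1 z + d2 V2 z = k) :
    ∫ z, (k * h z + (V1 z * d1 h z + V2 z * d2 h z)) = 0 := by
  have hX : ContDiff ℝ 1 fun z => V1 z * h z := hV1.mul hh
  have hY : ContDiff ℝ 1 fun z => V2 z * h z := hV2.mul hh
  have hXs : HasCompactSupport fun z => V1 z * h z := hs.mul_left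
  have hYs : HasCompactSupport fun z => V2 z * h z := hs.mul_left
  have h1 := integral_fderiv_eq_zero hX hXs 1
  have h2 := integral_fderiv_eq_zero hY hYs I
  have i1 : Integrable fun z => fderiv ℝ (fun z => V1 z * h z) z 1 :=
    ((hX.continuous_fderiv one_ne_zero).clm_apply continuous_const).integrable_of_hasCompactSupport
      (hXs.fderiv_apply ℝ 1)
  have i2 : Integrable fun z => fderiv ℝ (fun z => V2 z * h z) z I :=
    ((hY.continuous_fderiv one_ne_zero).clm_apply continuous_const).integrable_of_hasCompactSupport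
      (hYs.fderiv_apply ℝ I)
  have h3 : ∫ z, (fderiv ℝ (fun z => V1 z * h z) z 1 + fderiv ℝ (fun z => V2 z * h z) z I) = 0 := by
    rw [integral_add i1 i2, h1, h2, add_zero]
  rw [← h3]
  refine integral_congr_ae (Eventually.of_forall fun z => ?_)
  have e1 := ((hasD_of_diff (hV1.differentiable one_ne_zero z)).mul
    (hasD_of_diff (hh.differentiable one_ne_zero z))).d1
  have e2 := ((hasD_of_diff (hV2.differentiable one_ne_zero z)).mul
    (hasD_of_diff (hh.differentiable one_ne_zero z))).d2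
  unfold d1 at e1
  unfold d2 at e2
  have e3 := hdiv z
  unfold d1 d2 at e3
  beta_reduce
  rw [e1, e2]
  unfold d1 d2
  linear_combination (- h z) * e3

/-- a nonnegative compactly supported `h` with `(k + c) h + V · ∇ h ≤ 0` vanishes -/
theorem eq_zero_of_le {V1 V2 h : ℂ → ℝ} {k c : ℝ} (hV1 : ContDiff ℝ 1 V1) (hV2 : ContDiff ℝ 1 V2)
    (hh : ContDiff ℝ 1 h) (hs : HasCompactSupport h) (hdiv : ∀ z, d1 V1 z + d2 V2 z = k)
    (h0 : ∀ z, 0 ≤ h z) (hc : 0 < c)
    (hle : ∀ z, c * h z ≤ |k * h z + (V1 z * d1 h z + V2 z * d2 h z)|)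
    (hsg : (∀ z, 0 ≤ k * h z + (V1 z * d1 h z + V2 z * d2 h z)) ∨
      ∀ z, k * h z + (V1 z * d1 h z + V2 z * d2 h z) ≤ 0) (z : ℂ) : h z = 0 := by
  set F : ℂ → ℝ := fun z => k * h z + (V1 z * d1 h z + V2 z * d2 h z) with hF
  have hint : ∫ z, F z = 0 := integral_div hV1 hV2 hh hs hdiv
  have hFc : Continuous F := by
    have := continuous_d1 hh
    have := continuous_d2 hh
    have := hV1.continuous
    have := hV2.continuous
    have := hh.continuous
    fun_prop
  have hFs : HasCompactSupport F := by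
    have e1 : HasCompactSupport fun z => d1 h z := hs.fderiv_apply ℝ 1
    have e2 : HasCompactSupport fun z => d2 h z := hs.fderiv_apply ℝ I
    exact (hs.mul_left (f := fun _ => k)).add
      ((e1.mul_left (f := V1)).add (e2.mul_left (f := V2)))
  have hFi : Integrable F := hFc.integrable_of_hasCompactSupport hFs
  have hF0 : ∀ z, F z = 0 := by
    rcases hsg with hsg | hsg
    · have h1 := (integral_eq_zero_iff_of_nonneg hsg hFi).mp hint
      have h2 : F = 0 := Continuous.ae_eq_iff_eq (volume : Measure ℂ) hFc continuous_const |>.mp h1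
      exact fun z => congrFun h2 z
    · have hint' : ∫ z, - F z = 0 := by rw [integral_neg, hint, neg_zero]
      have h1 := (integral_eq_zero_iff_of_nonneg (fun z => neg_nonneg.mpr (hsg z)) hFi.neg).mp hint'
      have h2 : (fun z => - F z) = 0 :=
        Continuous.ae_eq_iff_eq (volume : Measure ℂ) hFc.neg continuous_const |>.mp h1
      intro z
      have := congrFun h2 z
      simpa using this
  have h3 := hle z
  have h4 : k * h z + (V1 z * d1 h z + V2 z * d2 h z) = 0 := hF0 z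
  rw [h4, abs_zero] at h3
  have h5 := h0 z
  nlinarith

/-! ### the cut-off powers -/

/-- `(x₊)^(n+2)` -/
noncomputable def psi (n : ℕ) (x : ℝ) : ℝ := (max x 0) ^ (n + 2)

theorem hasDerivAt_psi (n : ℕ) (x : ℝ) :
    HasDerivAt (psi n) ((n + 2) * (max x 0) ^ (n + 1)) x := by
  rcases lt_trichotomy x 0 with hx | hx | hx
  · have e : psi n =ᶠ[𝓝 x] fun _ => 0 := by
      filter_upwards [Iio_mem_nhds hx] with y hy
      have hy' : y < 0 := hy
      simp [psi, max_eq_right hy'.le]
    have h1 := (hasDerivAt_const x (0 : ℝ)).congr_of_eventuallyEq e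
    rw [max_eq_right hx.le]
    simpa using h1
  · subst hx
    rw [hasDerivAt_iff_isLittleO]
    simp only [max_self, ne_eq, Nat.add_eq_zero_iff, one_ne_zero, and_false, not_false_eq_true,
      zero_pow, mul_zero, smul_zero, sub_zero]
    have h2 : (fun x : ℝ => psi n x - psi n 0) =O[𝓝 0] fun x => x ^ (n + 2) := by
      refine Asymptotics.IsBigO.of_bound 1 (Eventually.of_forall fun y => ?_)
      simp only [psi, max_self, ne_eq, Nat.add_eq_zero_iff, OfNat.ofNat_ne_zero, and_false,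
        not_false_eq_true, zero_pow, sub_zero, norm_pow, one_mul]
      refine pow_le_pow_left₀ (norm_nonneg _) ?_ _
      rw [Real.norm_eq_abs, Real.norm_eq_abs, abs_of_nonneg (le_max_right _ _)]
      exact max_le (le_abs_self _) (abs_nonneg _)
    refine h2.trans_isLittleO ?_
    have h3 := Asymptotics.isLittleO_pow_id (𝕜 := ℝ) (n := n + 2) (by omega)
    exact h3
  · have e : psi n =ᶠ[𝓝 x] fun y => y ^ (n + 2) := by
      filter_upwards [Ioi_mem_nhds hx] with y hy
      have hy' : 0 < y := hy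
      simp [psi, max_eq_left hy'.le]
    have h1 := (hasDerivAt_pow (n + 2) x).congr_of_eventuallyEq e
    rw [max_eq_left hx.le]
    have e2 : ((n + 2 : ℕ) : ℝ) * x ^ (n + 2 - 1) = ((n : ℝ) + 2) * x ^ (n + 1) := by
      push_cast
      rfl
    rw [← e2]
    exact h1

theorem contDiff_psi (n : ℕ) : ContDiff ℝ 1 (psi n) := by
  rw [contDiff_one_iff_deriv]
  refine ⟨fun x => (hasDerivAt_psi n x).differentiableAt, ?_⟩
  have : deriv (psi n) = fun x => ((n : ℝ) + 2) * (max x 0) ^ (n + 1) :=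
    funext fun x => (hasDerivAt_psi n x).deriv
  rw [this]
  fun_prop

/-- `((x² - ε²)₊)^(n+2)` -/
noncomputable def phi (ε : ℝ) (n : ℕ) (x : ℝ) : ℝ := psi n (x ^ 2 - ε ^ 2)

/-- the derivative of `phi` -/
noncomputable def dphi (ε : ℝ) (n : ℕ) (x : ℝ) : ℝ :=
  ((n + 2) * (max (x ^ 2 - ε ^ 2) 0) ^ (n + 1)) * (2 * x)

theorem hasDerivAt_phi (ε : ℝ) (n : ℕ) (x : ℝ) : HasDerivAt (phi ε n) (dphi ε n x) x := by
  have h1 : HasDerivAt (fun x : ℝ => x ^ 2 - ε ^ 2) (2 * x) x := by
    have := (hasDerivAt_pow 2 x).sub_const (ε ^ 2)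
    simpa using this
  exact (hasDerivAt_psi n (x ^ 2 - ε ^ 2)).comp x h1

theorem contDiff_phi (ε : ℝ) (n : ℕ) : ContDiff ℝ 1 (phi ε n) :=
  (contDiff_psi n).comp (by fun_prop)

theorem phi_nonneg (ε : ℝ) (n : ℕ) (x : ℝ) : 0 ≤ phi ε n x :=
  pow_nonneg (le_max_right _ _) _

theorem phi_eq_zero {ε : ℝ} {n : ℕ} {x : ℝ} (h : |x| ≤ |ε|) : phi ε n x = 0 := by
  have h1 : x ^ 2 - ε ^ 2 ≤ 0 := by
    have := sq_le_sq.mpr h
    linarith
  simp [phi, psi, max_eq_right h1]

theorem abs_le_of_phi {ε : ℝ} {n : ℕ} {x : ℝ} (h : phi ε n x = 0) : |x| ≤ |ε| := by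
  have h1 : max (x ^ 2 - ε ^ 2) 0 = 0 := by
    unfold phi psi at h
    exact pow_eq_zero_iff (by omega) |>.mp h
  have h2 : x ^ 2 - ε ^ 2 ≤ 0 := by
    rw [← h1]; exact le_max_left _ _
  exact sq_le_sq.mp (by linarith)

theorem mul_dphi_ge (ε : ℝ) (n : ℕ) (x : ℝ) :
    (2 * (n + 2)) * phi ε n x ≤ x * dphi ε n x := by
  unfold phi dphi psi
  set M := max (x ^ 2 - ε ^ 2) 0 with hM
  have h0 : 0 ≤ M := le_max_right _ _
  have h1 : M ≤ x ^ 2 := max_le (by nlinarith [sq_nonneg ε]) (sq_nonneg x)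
  have h2 : M ^ (n + 2) = M ^ (n + 1) * M := pow_succ _ _
  have h3 : 0 ≤ M ^ (n + 1) := pow_nonneg h0 _
  have h4 : M ^ (n + 1) * M ≤ M ^ (n + 1) * x ^ 2 := mul_le_mul_of_nonneg_left h1 h3
  rw [h2]
  have h5 : x * (((n : ℝ) + 2) * M ^ (n + 1) * (2 * x)) =
      (2 * ((n : ℝ) + 2)) * (M ^ (n + 1) * x ^ 2) := by ring
  rw [h5]
  exact mul_le_mul_of_nonneg_left h4 (by positivity)

theorem phi_comp_compact {g : ℂ → ℝ} {ε : ℝ} (hε : 0 < ε) (n : ℕ)
    (hlim : Tendsto g (cocompact ℂ) (𝓝 0)) : HasCompactSupport fun z => phi ε n (g z) := by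
  have h1 : ∀ᶠ z in cocompact ℂ, |g z| < ε := by
    have := hlim.abs
    rw [abs_zero] at this
    exact this.eventually (gt_mem_nhds hε)
  obtain ⟨K, hK, hKs⟩ := mem_cocompact.mp h1
  refine HasCompactSupport.intro hK fun z hz => ?_
  have h2 : |g z| < ε := hKs hz
  exact phi_eq_zero (by rw [abs_of_pos hε]; exact h2.le)

/-- a function which tends to zero at infinity and which satisfies `V · ∇ g = - l g`, `l ≥ 0`, for a vector
field with constant divergence `k > 0`, vanishes -/
theorem transport_zero {V1 V2 g : ℂ → ℝ} {k l : ℝ} (hV1 : ContDiff ℝ 1 V1) (hV2 : ContDiff ℝ 1 V2)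
    (hg : ContDiff ℝ 1 g) (hk : 0 < k) (hl : 0 ≤ l) (hdiv : ∀ z, d1 V1 z + d2 V2 z = k)
    (htr : ∀ z, V1 z * d1 g z + V2 z * d2 g z = -(l * g z))
    (hlim : Tendsto g (cocompact ℂ) (𝓝 0)) (z : ℂ) : g z = 0 := by
  obtain ⟨n, hn⟩ : ∃ n : ℕ, l = 0 ∨ k + 1 ≤ l * (2 * (n + 2)) := by
    rcases hl.eq_or_lt with h | h
    · exact ⟨0, Or.inl h.symm⟩
    · obtain ⟨n, hn⟩ := exists_nat_ge ((k + 1) / l)
      refine ⟨n, Or.inr ?_⟩
      have h1 : k + 1 ≤ l * n := by
        rw [div_le_iff₀ h] at hn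
        linarith
      nlinarith [(Nat.cast_nonneg n : (0 : ℝ) ≤ n)]
  have key : ∀ ε : ℝ, 0 < ε → phi ε n (g z) = 0 := by
    intro ε hε
    have hd : ∀ z, V1 z * d1 (fun z => phi ε n (g z)) z + V2 z * d2 (fun z => phi ε n (g z)) z =
        -(l * (g z * dphi ε n (g z))) := by
      intro z
      have e := HasD.comp (hasDerivAt_phi ε n (g z)) (hasD_of_diff (hg.differentiable one_ne_zero z))
      rw [e.d1, e.d2]
      linear_combination (dphi ε n (g z)) * htr z
    have hc : 0 < min k 1 := lt_min hk one_pos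
    refine eq_zero_of_le (c := min k 1) hV1 hV2 ((contDiff_phi ε n).comp hg)
      (phi_comp_compact hε n hlim) hdiv (fun z => phi_nonneg _ _ _) hc ?_ ?_ z
    · intro z
      have h1 := phi_nonneg ε n (g z)
      have h2 := mul_dphi_ge ε n (g z)
      have e := hd z
      show min k 1 * phi ε n (g z) ≤ |k * phi ε n (g z) + (V1 z * d1 (fun z => phi ε n (g z)) z +
        V2 z * d2 (fun z => phi ε n (g z)) z)|
      rw [e]
      rcases hn with hn | hn
      · rw [hn, zero_mul, neg_zero, add_zero, abs_of_nonneg (mul_nonneg hk.le h1)]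
        exact mul_le_mul_of_nonneg_right (min_le_left _ _) h1
      · have h3 : k * phi ε n (g z) + -(l * (g z * dphi ε n (g z))) ≤ -(phi ε n (g z)) := by
          have h4 : l * ((2 * (n + 2)) * phi ε n (g z)) ≤ l * (g z * dphi ε n (g z)) :=
            mul_le_mul_of_nonneg_left h2 hl
          have h5 : (k + 1) * phi ε n (g z) ≤ (l * (2 * (n + 2))) * phi ε n (g z) :=
            mul_le_mul_of_nonneg_right hn h1
          nlinarith
        rw [abs_of_nonpos (by linarith)]
        have h6 : min k 1 * phi ε n (g z) ≤ 1 * phi ε n (g z) :=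
          mul_le_mul_of_nonneg_right (min_le_right _ _) h1
        linarith
    · rcases hn with hn | hn
      · left
        intro z
        have h1 := phi_nonneg ε n (g z)
        have e := hd z
        show 0 ≤ k * phi ε n (g z) + (V1 z * d1 (fun z => phi ε n (g z)) z +
          V2 z * d2 (fun z => phi ε n (g z)) z)
        rw [e, hn, zero_mul, neg_zero, add_zero]
        exact mul_nonneg hk.le h1
      · right
        intro z
        have h1 := phi_nonneg ε n (g z)
        have h2 := mul_dphi_ge ε n (g z)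
        have e := hd z
        show k * phi ε n (g z) + (V1 z * d1 (fun z => phi ε n (g z)) z +
          V2 z * d2 (fun z => phi ε n (g z)) z) ≤ 0
        rw [e]
        have h4 : l * ((2 * (n + 2)) * phi ε n (g z)) ≤ l * (g z * dphi ε n (g z)) :=
          mul_le_mul_of_nonneg_left h2 hl
        have h5 : (k + 1) * phi ε n (g z) ≤ (l * (2 * (n + 2))) * phi ε n (g z) :=
          mul_le_mul_of_nonneg_right hn h1
        nlinarith
  by_contra hne
  have h1 : 0 < |g z| / 2 := by positivity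
  have h2 := abs_le_of_phi (key _ h1)
  rw [abs_of_pos h1] at h2
  linarith

end Pool.Agent.Lib.MP_6c0de8_an
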