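import Mathlib

/-! Behaviour at infinity: two lemmas. -/

set_option autoImplicit false

namespace Pool.Agent.Lib.MP_6c0de8_an

open MeasureTheory Filter Topology Complex Metric

/-- square integrability and `|D U| ≤ C / |y|²` force `|y| |U(y)| → 0` -/
theorem decay_of_L2 {U : ℂ → ℂ} {C s0 : ℝ} (hU : Differentiable ℝ U) (hC : 0 ≤ C)
    (hD : ∀ y, s0 ≤ ‖y‖ → ‖fderiv ℝ U y‖ ≤ C / ‖y‖ ^ 2)
    (hi : Integrable fun y => ‖U y‖ ^ 2) :
    Tendsto (fun y => ‖y‖ * ‖U y‖) (cocompact ℂ) (𝓝 0) := by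
  have tail : ∀ η : ℝ, 0 < η → ∃ n : ℕ, ∫ z in {z : ℂ | (n : ℝ) ≤ ‖z‖}, ‖U z‖ ^ 2 < η := by
    intro η hη
    have hm : ∀ n : ℕ, MeasurableSet {z : ℂ | (n : ℝ) ≤ ‖z‖} := fun n =>
      (isClosed_le continuous_const continuous_norm).measurableSet
    have ha : Antitone fun n : ℕ => {z : ℂ | (n : ℝ) ≤ ‖z‖} := by
      intro a b hab z hz
      have hz' : (b : ℝ) ≤ ‖z‖ := hz
      have : (a : ℝ) ≤ b := by exact_mod_cast hab
      exact this.trans hz'
    have h1 := tendsto_setIntegral_of_antitone (μ := (volume : Measure ℂ))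
      (f := fun z => ‖U z‖ ^ 2) hm ha ⟨0, hi.integrableOn⟩
    have he : ⋂ n : ℕ, {z : ℂ | (n : ℝ) ≤ ‖z‖} = ∅ := by
      ext z
      simp only [Set.mem_iInter, Set.mem_ofPred_eq, Set.mem_empty_iff_false, iff_false, not_forall,
        not_le]
      exact exists_nat_gt ‖z‖
    rw [he] at h1
    simp only [Measure.restrict_empty, integral_zero_measure] at h1
    exact (h1.eventually (gt_mem_nhds hη)).exists
  rw [Metric.tendsto_nhds]
  intro ε hε
  set κ : ℝ := min (1 / 2) (ε / (8 * (C + 1))) with hκ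
  have hκ0 : 0 < κ := lt_min (by norm_num) (by positivity)
  have hκ1 : κ ≤ 1 / 2 := min_le_left _ _
  have hκ2 : 8 * (C + 1) * κ ≤ ε := by
    have : κ ≤ ε / (8 * (C + 1)) := min_le_right _ _
    rw [le_div_iff₀ (by positivity)] at this
    linarith
  obtain ⟨n, hn⟩ := tail (Real.pi * ε ^ 2 * κ ^ 2 / 4) (by positivity)
  have ev : ∀ᶠ y : ℂ in cocompact ℂ, max 1 (max (2 * s0) (2 * n)) ≤ ‖y‖ :=
    tendsto_norm_cocompact_atTop.eventually_ge_atTop _
  filter_upwards [ev] with y hy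
  have hy1 : 1 ≤ ‖y‖ := (le_max_left _ _).trans hy
  have hys : 2 * s0 ≤ ‖y‖ := ((le_max_left _ _).trans (le_max_right _ _)).trans hy
  have hyn : 2 * (n : ℝ) ≤ ‖y‖ := ((le_max_right _ _).trans (le_max_right _ _)).trans hy
  have hy0 : 0 < ‖y‖ := by linarith
  rw [Real.dist_eq, sub_zero, abs_of_nonneg (by positivity)]
  by_contra hcon
  rw [not_lt] at hcon
  have hball : ∀ z ∈ ball y (κ * ‖y‖), ‖y‖ / 2 ≤ ‖z‖ := by
    intro z hz
    rw [mem_ball, dist_eq_norm] at hz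
    have h1 : ‖y‖ - ‖z‖ ≤ ‖z - y‖ := by
      have := norm_sub_norm_le y z
      rwa [norm_sub_rev] at this
    have h2 : κ * ‖y‖ ≤ 1 / 2 * ‖y‖ := mul_le_mul_of_nonneg_right hκ1 hy0.le
    linarith
  have hlow : ∀ z ∈ ball y (κ * ‖y‖), ε / (2 * ‖y‖) ≤ ‖U z‖ := by
    intro z hz
    have hb : ∀ w ∈ ball y (κ * ‖y‖), ‖fderiv ℝ U w‖ ≤ 4 * C / ‖y‖ ^ 2 := by
      intro w hw
      have h1 := hball w hw
      refine (hD w (by linarith)).trans ?_
      have hw0 : 0 < ‖w‖ := by linarith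
      rw [div_le_div_iff₀ (by positivity) (by positivity)]
      have h2 : (‖y‖ / 2) ^ 2 ≤ ‖w‖ ^ 2 := pow_le_pow_left₀ (by positivity) h1 2
      have h3 := mul_le_mul_of_nonneg_left h2 hC
      nlinarith
    have h1 := (convex_ball y (κ * ‖y‖)).norm_image_sub_le_of_norm_fderiv_le
      (fun w _ => hU w) hb (mem_ball_self (by positivity)) hz
    have h2 : ‖z - y‖ ≤ κ * ‖y‖ := by
      rw [mem_ball, dist_eq_norm] at hz
      exact hz.le
    have h3 : 4 * C / ‖y‖ ^ 2 * ‖z - y‖ ≤ ε / (2 * ‖y‖) := by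
      calc 4 * C / ‖y‖ ^ 2 * ‖z - y‖ ≤ 4 * C / ‖y‖ ^ 2 * (κ * ‖y‖) :=
            mul_le_mul_of_nonneg_left h2 (by positivity)
        _ = 8 * C * κ / (2 * ‖y‖) := by field_simp; ring
        _ ≤ ε / (2 * ‖y‖) := by
            apply div_le_div_of_nonneg_right _ (by positivity)
            nlinarith
    have h4 : ε / ‖y‖ ≤ ‖U y‖ := by
      rw [div_le_iff₀ hy0]
      linarith
    have h5 : ‖U y‖ - ‖U z‖ ≤ ‖U z - U y‖ := by
      have := norm_sub_norm_le (U y) (U z)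
      rwa [norm_sub_rev] at this
    have h6 : ε / ‖y‖ = ε / (2 * ‖y‖) + ε / (2 * ‖y‖) := by field_simp; ring
    linarith
  have h1 : (ε / (2 * ‖y‖)) ^ 2 * (volume (ball y (κ * ‖y‖))).toReal ≤
      ∫ z in ball y (κ * ‖y‖), ‖U z‖ ^ 2 := by
    have hc : ∫ z in ball y (κ * ‖y‖), (ε / (2 * ‖y‖)) ^ 2 =
        (ε / (2 * ‖y‖)) ^ 2 * (volume (ball y (κ * ‖y‖))).toReal := by
      rw [setIntegral_const, smul_eq_mul, mul_comm]
      rfl
    rw [← hc]
    refine setIntegral_mono_on ?_ hi.integrableOn measurableSet_ball fun z hz => ?_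
    · exact integrableOn_const measure_ball_lt_top.ne
    · exact pow_le_pow_left₀ (by positivity) (hlow z hz) 2
  have h2 : ∫ z in ball y (κ * ‖y‖), ‖U z‖ ^ 2 ≤ ∫ z in {z : ℂ | (n : ℝ) ≤ ‖z‖}, ‖U z‖ ^ 2 := by
    refine setIntegral_mono_set hi.integrableOn (Eventually.of_forall fun z => by positivity) ?_
    have hsub : ball y (κ * ‖y‖) ⊆ {z : ℂ | (n : ℝ) ≤ ‖z‖} := by
      intro z hz
      have := hball z hz
      exact (show (n : ℝ) ≤ ‖z‖ by linarith)
    exact hsub.eventuallyLE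
  have h3 : (volume (ball y (κ * ‖y‖))).toReal = Real.pi * (κ * ‖y‖) ^ 2 := by
    rw [Complex.volume_ball, ENNReal.toReal_mul, ENNReal.toReal_pow,
      ENNReal.toReal_ofReal (by positivity)]
    simp
    ring
  rw [h3] at h1
  have h4 : (ε / (2 * ‖y‖)) ^ 2 * (Real.pi * (κ * ‖y‖) ^ 2) = Real.pi * ε ^ 2 * κ ^ 2 / 4 := by
    field_simp
    ring
  rw [h4] at h1
  linarith

/-- `|D f| ≤ C / |y|³` near infinity forces a limit at infinity -/
theorem exists_limit {f : ℂ → ℝ} {C s0 : ℝ} (hf : Differentiable ℝ f) (hC : 0 ≤ C)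
    (hD : ∀ y, s0 ≤ ‖y‖ → ‖fderiv ℝ f y‖ ≤ C / ‖y‖ ^ 3) :
    ∃ L : ℝ, Tendsto f (cocompact ℂ) (𝓝 L) := by
  -- comparison of two points in an annulus
  have step : ∀ y z : ℂ, s0 ≤ ‖y‖ → 0 < ‖y‖ → ‖y‖ ≤ ‖z‖ → ‖z‖ ≤ 2 * ‖y‖ →
      |f z - f y| ≤ 8 * C / ‖y‖ ^ 2 := by
    intro y z hs hy hyz hz
    have hz0 : 0 < ‖z‖ := lt_of_lt_of_le hy hyz
    have hyne : y ≠ 0 := norm_pos_iff.mp hy
    have hzne : z ≠ 0 := norm_pos_iff.mp hz0
    set S : Set ℂ := {w | Real.log ‖y‖ ≤ w.re} with hS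
    have hconv : Convex ℝ S := convex_halfSpace_re_ge _
    have hder : ∀ w, HasFDerivAt (𝕜 := ℝ) (fun w => f (exp w))
        ((fderiv ℝ f (exp w)).comp ((ContinuousLinearMap.toSpanSingleton ℂ (exp w)).restrictScalars ℝ)) w := by
      intro w
      have e1 : HasFDerivAt (𝕜 := ℝ) exp
          ((ContinuousLinearMap.toSpanSingleton ℂ (exp w)).restrictScalars ℝ) w :=
        (Complex.hasDerivAt_exp w).hasFDerivAt.restrictScalars ℝ
      exact (hf (exp w)).hasFDerivAt.comp w e1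
    have hb : ∀ w ∈ S, ‖fderiv ℝ (fun w => f (exp w)) w‖ ≤ C / ‖y‖ ^ 2 := by
      intro w hw
      have hw' : Real.log ‖y‖ ≤ w.re := hw
      rw [(hder w).fderiv]
      have e1 : ‖exp w‖ = Real.exp w.re := Complex.norm_exp w
      have e2 : ‖y‖ ≤ ‖exp w‖ := by
        rw [e1, ← Real.exp_log hy]
        exact Real.exp_le_exp.mpr hw'
      have e3 : 0 < ‖exp w‖ := lt_of_lt_of_le hy e2
      refine (ContinuousLinearMap.opNorm_comp_le _ _).trans ?_
      have e4 : ‖(ContinuousLinearMap.toSpanSingleton ℂ (exp w)).restrictScalars ℝ‖ ≤ ‖exp w‖ := by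
        refine ContinuousLinearMap.opNorm_le_bound _ (norm_nonneg _) fun v => ?_
        simp [mul_comm]
      calc ‖fderiv ℝ f (exp w)‖ * ‖(ContinuousLinearMap.toSpanSingleton ℂ (exp w)).restrictScalars ℝ‖
          ≤ C / ‖exp w‖ ^ 3 * ‖exp w‖ :=
            mul_le_mul (hD _ (hs.trans e2)) e4 (norm_nonneg _) (by positivity)
        _ = C / ‖exp w‖ ^ 2 := by field_simp
        _ ≤ C / ‖y‖ ^ 2 := div_le_div_of_nonneg_left hC (by positivity)
            (pow_le_pow_left₀ hy.le e2 2)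
    have h1 := hconv.norm_image_sub_le_of_norm_fderiv_le
      (fun w _ => (hder w).differentiableAt) hb (x := log y) (y := log z)
      (by simp [hS, log_re]) (by
        simp only [hS, Set.mem_ofPred_eq, log_re]
        exact Real.log_le_log hy hyz)
    rw [exp_log hyne, exp_log hzne] at h1
    have h2 : ‖log z - log y‖ ≤ 8 := by
      refine (Complex.norm_le_abs_re_add_abs_im _).trans ?_
      rw [sub_re, sub_im, log_re, log_re, log_im, log_im]
      have a1 : |Real.log ‖z‖ - Real.log ‖y‖| ≤ 1 := by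
        have b1 : Real.log ‖y‖ ≤ Real.log ‖z‖ := Real.log_le_log hy hyz
        have b2 : Real.log ‖z‖ ≤ Real.log 2 + Real.log ‖y‖ := by
          rw [← Real.log_mul two_ne_zero hy.ne']
          exact Real.log_le_log hz0 hz
        have b3 : Real.log 2 ≤ 1 := by
          have := Real.log_two_lt_d9
          linarith
        rw [abs_of_nonneg (by linarith)]
        linarith
      have p1 := Complex.abs_arg_le_pi z
      have p2 := Complex.abs_arg_le_pi y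
      have a2 : |arg z - arg y| ≤ Real.pi + Real.pi := (abs_sub _ _).trans (add_le_add p1 p2)
      have := Real.pi_lt_d2
      linarith
    rw [Real.norm_eq_abs] at h1
    refine h1.trans ?_
    calc C / ‖y‖ ^ 2 * ‖log z - log y‖ ≤ C / ‖y‖ ^ 2 * 8 :=
          mul_le_mul_of_nonneg_left h2 (by positivity)
      _ = 8 * C / ‖y‖ ^ 2 := by ring
  obtain ⟨n0, hn0⟩ := pow_unbounded_of_one_lt s0 (one_lt_two (α := ℝ))
  have hpn : ∀ n : ℕ, ‖((2 : ℂ) ^ n)‖ = 2 ^ n := fun n => by simp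
  have hge : ∀ n : ℕ, s0 ≤ 2 ^ (n0 + n) := by
    intro n
    refine hn0.le.trans ?_
    exact pow_le_pow_right₀ one_le_two (by omega)
  set a : ℕ → ℝ := fun n => f ((2 : ℂ) ^ (n0 + n)) with ha
  have hCn : ∀ n : ℕ, 8 * C / ((2 : ℝ) ^ (n0 + n)) ^ 2 = 8 * C / 4 ^ n0 * (1 / 4) ^ n := by
    intro n
    rw [← pow_mul, mul_comm (n0 + n) 2, pow_mul, pow_add]
    norm_num
    rw [one_div, inv_pow]
    field_simp
  have hstep : ∀ n, dist (a n) (a (n + 1)) ≤ 8 * C / 4 ^ n0 * (1 / 4) ^ n := by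
    intro n
    have h := step ((2 : ℂ) ^ (n0 + n)) ((2 : ℂ) ^ (n0 + (n + 1))) (by rw [hpn]; exact hge n)
      (by rw [hpn]; positivity) (by rw [hpn, hpn]; exact pow_le_pow_right₀ one_le_two (by omega))
      (by rw [hpn, hpn, ← add_assoc, pow_succ]; linarith [pow_pos (two_pos (α := ℝ)) (n0 + n)])
    rw [hpn, hCn] at h
    rw [dist_comm, Real.dist_eq]
    exact h
  obtain ⟨L, hL⟩ := cauchySeq_tendsto_of_complete (cauchySeq_of_le_geometric _ _ (by norm_num) hstep)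
  refine ⟨L, ?_⟩
  have hdist : ∀ n, dist (a n) L ≤ 8 * C / 4 ^ n0 * (1 / 4) ^ n / (1 - 1 / 4) := fun n =>
    dist_le_of_le_geometric_of_tendsto _ _ (by norm_num) hstep hL n
  have bound : ∀ y : ℂ, (2 : ℝ) ^ n0 ≤ ‖y‖ → dist (f y) L ≤ 80 * C / ‖y‖ ^ 2 := by
    intro y hy
    have hy0 : 0 < ‖y‖ := lt_of_lt_of_le (by positivity) hy
    obtain ⟨n, hn1, hn2⟩ := exists_nat_pow_near (x := ‖y‖ / 2 ^ n0) (y := (2 : ℝ))
      (by rw [le_div_iff₀ (by positivity)]; linarith) one_lt_two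
    rw [le_div_iff₀ (by positivity), ← pow_add, add_comm n n0] at hn1
    rw [div_lt_iff₀ (by positivity), ← pow_add] at hn2
    have hn2' : ‖y‖ < 2 * 2 ^ (n0 + n) := by
      calc ‖y‖ < 2 ^ (n + 1 + n0) := hn2
        _ = 2 * 2 ^ (n0 + n) := by rw [← pow_succ']; congr 1; omega
    have h1 := step ((2 : ℂ) ^ (n0 + n)) y (by rw [hpn]; exact hge n) (by rw [hpn]; positivity)
      (by rw [hpn]; exact hn1) (by rw [hpn]; exact hn2'.le)
    rw [hpn, hCn] at h1
    have h2 := hdist n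
    have h3 : dist (f y) L ≤ dist (f y) (a n) + dist (a n) L := dist_triangle _ _ _
    have h4 : dist (f y) (a n) ≤ 8 * C / 4 ^ n0 * (1 / 4) ^ n := by
      rw [Real.dist_eq]; exact h1
    have h5 : 8 * C / 4 ^ n0 * (1 / 4) ^ n ≤ 32 * C / ‖y‖ ^ 2 := by
      rw [← hCn, div_le_div_iff₀ (by positivity) (by positivity)]
      have : ‖y‖ ^ 2 ≤ (2 * 2 ^ (n0 + n)) ^ 2 := pow_le_pow_left₀ hy0.le hn2'.le 2
      have := mul_le_mul_of_nonneg_left this hC
      nlinarith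
    have h6 : 8 * C / 4 ^ n0 * (1 / 4) ^ n / (1 - 1 / 4) = 4 / 3 * (8 * C / 4 ^ n0 * (1 / 4) ^ n) := by
      ring
    rw [h6] at h2
    have h7 : 32 * C / ‖y‖ ^ 2 * (7 / 3) ≤ 80 * C / ‖y‖ ^ 2 := by
      have : 0 ≤ C / ‖y‖ ^ 2 := by positivity
      have e1 : 32 * C / ‖y‖ ^ 2 * (7 / 3) = 224 / 3 * (C / ‖y‖ ^ 2) := by ring
      have e2 : 80 * C / ‖y‖ ^ 2 = 80 * (C / ‖y‖ ^ 2) := by ring
      rw [e1, e2]
      nlinarith
    linarith
  rw [tendsto_iff_dist_tendsto_zero]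
  have hz : Tendsto (fun y : ℂ => 80 * C / ‖y‖ ^ 2) (cocompact ℂ) (𝓝 0) :=
    Tendsto.div_atTop tendsto_const_nhds
      ((tendsto_pow_atTop two_ne_zero).comp tendsto_norm_cocompact_atTop)
  refine squeeze_zero' (Eventually.of_forall fun _ => dist_nonneg) ?_ hz
  filter_upwards [tendsto_norm_cocompact_atTop.eventually_ge_atTop ((2 : ℝ) ^ n0)] with y hy
  exact bound y hy

end Pool.Agent.Lib.MP_6c0de8_an
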