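import Pool.Agent.Lib.MP_6c0de8_an.Half

/-! The energy-critical exponent: from decay at infinity to triviality, and the case of constant density. -/

set_option autoImplicit false

namespace Pool.Agent.Lib.MP_6c0de8_an

open MeasureTheory Filter Topology Complex

theorem tendsto_ofReal0 {f : ℂ → ℝ} {l : Filter ℂ} (h : Tendsto f l (𝓝 0)) :
    Tendsto (fun z => (f z : ℂ)) l (𝓝 0) := by
  have h1 : Tendsto ofReal (𝓝 (0 : ℝ)) (𝓝 (ofReal 0)) := continuous_ofReal.tendsto 0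
  rw [ofReal_zero] at h1
  exact h1.comp h

/-- `U₁ - i U₂` is entire when the divergence and the vorticity vanish -/
theorem entire {U1 U2 : ℂ → ℝ} (h1 : ContDiff ℝ 2 U1) (h2 : ContDiff ℝ 2 U2)
    (hdiv : ∀ z, d1 U1 z + d2 U2 z = 0) (hom : ∀ z, Om U1 U2 z = 0) :
    Differentiable ℂ (fun z => (U1 z : ℂ) - (U2 z : ℂ) * I) := by
  intro z
  have e1 : HasFDerivAt (fun z => (U1 z : ℂ)) (ofRealCLM.comp (fderiv ℝ U1 z)) z :=
    ofRealCLM.hasFDerivAt.comp z (h1.differentiable two_ne_zero z).hasFDerivAt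
  have e2 : HasFDerivAt (fun z => (U2 z : ℂ)) (ofRealCLM.comp (fderiv ℝ U2 z)) z :=
    ofRealCLM.hasFDerivAt.comp z (h2.differentiable two_ne_zero z).hasFDerivAt
  have e := e1.sub (e2.mul_const I)
  rw [differentiableAt_complex_iff_differentiableAt_real]
  refine ⟨e.differentiableAt, ?_⟩
  have e' := e.fderiv
  have hd := hdiv z
  have ho := hom z
  unfold Om at ho
  unfold d1 d2 at hd ho
  have e'' : fderiv ℝ (fun z => (U1 z : ℂ) - (U2 z : ℂ) * I) z = _ := e'
  rw [e'']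
  apply Complex.ext
  · simp
    linarith
  · simp
    linarith

theorem tendsto_V_atTop {c : ℝ} {U1 U2 : ℂ → ℝ}
    (h1 : Tendsto U1 (cocompact ℂ) (𝓝 0)) (h2 : Tendsto U2 (cocompact ℂ) (𝓝 0)) :
    Tendsto (fun z => V1 (1 / 2) c U1 z ^ 2 + V2 (1 / 2) c U2 z ^ 2) (cocompact ℂ) atTop := by
  -- `|V|² ≥ |β z|² / 2 - |U|²`
  have hn : Tendsto (fun z : ℂ => ‖z‖ ^ 2) (cocompact ℂ) atTop :=
    (tendsto_pow_atTop two_ne_zero).comp tendsto_norm_cocompact_atTop
  have hlow : ∀ z : ℂ, 1 / 8 * ‖z‖ ^ 2 - (U1 z ^ 2 + U2 z ^ 2) ≤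
      V1 (1 / 2) c U1 z ^ 2 + V2 (1 / 2) c U2 z ^ 2 := by
    intro z
    have hz : ‖z‖ ^ 2 = z.re ^ 2 + z.im ^ 2 := by
      rw [Complex.sq_norm, Complex.normSq_apply]; ring
    rw [hz]
    unfold V1 V2
    have key : ∀ A B : ℝ, A ^ 2 / 2 - B ^ 2 ≤ (A + B) ^ 2 := fun A B => by
      nlinarith [sq_nonneg (A + 2 * B)]
    have k1 := key (1 / 2 * z.re - c * z.im) (U1 z)
    have k2 := key (1 / 2 * z.im + c * z.re) (U2 z)
    nlinarith [sq_nonneg (c * z.re), sq_nonneg (c * z.im)]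
  refine tendsto_atTop_mono hlow ?_
  have e1 : Tendsto (fun z : ℂ => 1 / 8 * ‖z‖ ^ 2) (cocompact ℂ) atTop :=
    hn.const_mul_atTop (by norm_num)
  have e2 : Tendsto (fun z : ℂ => -(U1 z ^ 2 + U2 z ^ 2)) (cocompact ℂ) (𝓝 0) := by
    have := ((h1.pow 2).add (h2.pow 2)).neg
    simpa using this
  simpa [sub_eq_add_neg] using e1.atTop_add e2

theorem half_trivial {c : ℝ} {R U1 U2 P : ℂ → ℝ} (h : Profile (1 / 2) c R U1 U2 P) {m : ℝ}
    (hm : 0 < m) (hR : ∀ z, m ≤ R z) (hR1 : Tendsto (d1 R) (cocompact ℂ) (𝓝 0))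
    (hR2 : Tendsto (d2 R) (cocompact ℂ) (𝓝 0))
    (hz1 : Tendsto (fun z => ‖z‖ * U1 z) (cocompact ℂ) (𝓝 0))
    (hz2 : Tendsto (fun z => ‖z‖ * U2 z) (cocompact ℂ) (𝓝 0))
    (hP : Tendsto P (cocompact ℂ) (𝓝 0)) (z : ℂ) : R z = R 0 ∧ U1 z = 0 ∧ U2 z = 0 := by
  have small : ∀ {U : ℂ → ℝ}, Tendsto (fun z => ‖z‖ * U z) (cocompact ℂ) (𝓝 0) →
      Tendsto U (cocompact ℂ) (𝓝 0) := by
    intro U hU
    rw [tendsto_zero_iff_norm_tendsto_zero] at hU ⊢
    refine squeeze_zero' (Eventually.of_forall fun z => norm_nonneg _) ?_ hU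
    have h1 : ∀ᶠ z : ℂ in cocompact ℂ, 1 ≤ ‖z‖ :=
      tendsto_norm_cocompact_atTop.eventually_ge_atTop 1
    filter_upwards [h1] with z hz
    rw [norm_mul, norm_norm]
    exact le_mul_of_one_le_left (norm_nonneg _) hz
  have hU1 := small hz1
  have hU2 := small hz2
  -- `Q → 0`
  have hQ : Tendsto (Q c U1 U2) (cocompact ℂ) (𝓝 0) := by
    have bre : ∀ {U : ℂ → ℝ}, Tendsto (fun z => ‖z‖ * U z) (cocompact ℂ) (𝓝 0) →
        ∀ g : ℂ → ℝ, (∀ z, |g z| ≤ ‖z‖) → Tendsto (fun z => g z * U z) (cocompact ℂ) (𝓝 0) := by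
      intro U hU g hg
      rw [tendsto_zero_iff_norm_tendsto_zero] at hU ⊢
      refine squeeze_zero (fun z => norm_nonneg _) (fun z => ?_) hU
      rw [norm_mul, norm_mul, norm_norm]
      exact mul_le_mul_of_nonneg_right (hg z) (norm_nonneg _)
    have a1 := bre hz1 (fun z => z.re) (fun z => Complex.abs_re_le_norm z)
    have a2 := bre hz1 (fun z => z.im) (fun z => Complex.abs_im_le_norm z)
    have a3 := bre hz2 (fun z => z.re) (fun z => Complex.abs_re_le_norm z)
    have a4 := bre hz2 (fun z => z.im) (fun z => Complex.abs_im_le_norm z)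
    have b := ((((a1.const_mul (1 / 2)).sub (a2.const_mul c)).add
      ((a4.const_mul (1 / 2)).add (a3.const_mul c))).add
      (((hU1.mul hU1).add (hU2.mul hU2)).const_mul (1 / 2))).neg
    simp only [mul_zero, sub_zero, add_zero, neg_zero] at b
    refine b.congr fun z => ?_
    unfold Q
    ring
  have hPR : Tendsto (fun z => P z * (R z)⁻¹) (cocompact ℂ) (𝓝 0) := by
    rw [tendsto_zero_iff_norm_tendsto_zero]
    have hb := (tendsto_zero_iff_norm_tendsto_zero.mp hP).mul_const m⁻¹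
    rw [zero_mul] at hb
    refine squeeze_zero (fun z => norm_nonneg _) (fun z => ?_) hb
    rw [norm_mul, norm_inv]
    refine mul_le_mul_of_nonneg_left ?_ (norm_nonneg _)
    refine inv_anti₀ hm ?_
    rw [Real.norm_eq_abs, abs_of_pos (h.pos z)]
    exact hR z
  have hPQ := pressure_eq h hQ hPR
  -- `ν → 0`
  have hV := tendsto_V_atTop (c := c) hU1 hU2
  have hnu : Tendsto (nu c R U1 U2) (cocompact ℂ) (𝓝 0) := by
    have hsq : Tendsto (fun z => nu c R U1 U2 z ^ 2) (cocompact ℂ) (𝓝 0) := by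
      have hb : Tendsto (fun z => d1 R z ^ 2 + d2 R z ^ 2) (cocompact ℂ) (𝓝 0) := by
        simpa using (hR1.pow 2).add (hR2.pow 2)
      refine squeeze_zero' (Eventually.of_forall fun z => sq_nonneg _) ?_ hb
      have hne : ∀ᶠ z : ℂ in cocompact ℂ, 1 ≤ ‖z‖ :=
        tendsto_norm_cocompact_atTop.eventually_ge_atTop 1
      filter_upwards [hV.eventually_ge_atTop 1, hne] with z hz hz1
      have hz0 : z ≠ 0 := by
        rintro rfl
        rw [norm_zero] at hz1
        linarith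
      obtain ⟨g1, g2⟩ := grad_R h hPQ hz0
      rw [g1, g2]
      have : (-(nu c R U1 U2 z * V2 (1 / 2) c U2 z)) ^ 2 + (nu c R U1 U2 z * V1 (1 / 2) c U1 z) ^ 2 =
          nu c R U1 U2 z ^ 2 * (V1 (1 / 2) c U1 z ^ 2 + V2 (1 / 2) c U2 z ^ 2) := by ring
      rw [this]
      exact le_mul_of_one_le_right (sq_nonneg _) hz
    rw [tendsto_zero_iff_norm_tendsto_zero]
    have := hsq.sqrt
    rw [Real.sqrt_zero] at this
    refine this.congr fun z => ?_
    rw [Real.sqrt_sq_eq_abs, Real.norm_eq_abs]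
  have hconst := half h hPQ hnu
  have hRe : R = fun _ => R 0 := funext hconst
  have g1 : ∀ w, d1 R w = 0 := fun w => by rw [hRe]; exact (hasD_const _ w).d1
  have g2 : ∀ w, d2 R w = 0 := fun w => by rw [hRe]; exact (hasD_const _ w).d2
  -- the vorticity vanishes
  have hOm : ∀ w, Om U1 U2 w = 0 := by
    intro w
    by_contra hne
    have hOc : Continuous (Om U1 U2) := (contDiff_Om h.hU1 h.hU2).continuous
    have ev : ∀ᶠ v in 𝓝 w, Om U1 U2 v ≠ 0 := hOc.continuousAt.eventually_ne hne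
    have hv : ∀ v, Om U1 U2 v ≠ 0 → V1 (1 / 2) c U1 v = 0 ∧ V2 (1 / 2) c U2 v = 0 := by
      intro v hv
      obtain ⟨k1, k2⟩ := key h hPQ v
      rw [g1, mul_zero] at k1
      rw [g2, mul_zero] at k2
      have hRv := (h.pos v).ne'
      constructor
      · have : R v * Om U1 U2 v * V1 (1 / 2) c U1 v = 0 := by linarith
        rcases mul_eq_zero.mp this with h' | h'
        · exact absurd h' (mul_ne_zero hRv hv)
        · exact h'
      · rcases mul_eq_zero.mp k1.symm with h' | h'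
        · exact absurd h' (mul_ne_zero hRv hv)
        · exact h'
    have e1 : V1 (1 / 2) c U1 =ᶠ[𝓝 w] fun _ => 0 := ev.mono fun v hv' => (hv v hv').1
    have e2 : V2 (1 / 2) c U2 =ᶠ[𝓝 w] fun _ => 0 := ev.mono fun v hv' => (hv v hv').2
    have f1 := ((hasD_const 0 w).congr e1).d1
    have f2 := ((hasD_const 0 w).congr e2).d2
    have := h.divV w
    rw [f1, f2] at this
    norm_num at this
  have hent := entire h.hU1 h.hU2 h.div hOm
  have hlim : Tendsto (fun z => (U1 z : ℂ) - (U2 z : ℂ) * I) (cocompact ℂ) (𝓝 0) := by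
    have a1 : Tendsto (fun z => (U1 z : ℂ)) (cocompact ℂ) (𝓝 0) := tendsto_ofReal0 hU1
    have a2 : Tendsto (fun z => (U2 z : ℂ)) (cocompact ℂ) (𝓝 0) := tendsto_ofReal0 hU2
    simpa using a1.sub (a2.mul_const I)
  have hz := hent.apply_eq_of_tendsto_cocompact z hlim
  have r1 := congrArg Complex.re hz
  have r2 := congrArg Complex.im hz
  simp at r1 r2
  exact ⟨hconst z, r1, r2⟩

/-- constant density: the vorticity is transported -/
theorem vorticity {b c R0 : ℝ} {R U1 U2 P : ℂ → ℝ} (h : Profile b c R U1 U2 P)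
    (hR : ∀ z, R z = R0) (z : ℂ) :
    V1 b c U1 z * d1 (Om U1 U2) z + V2 b c U2 z * d2 (Om U1 U2) z = -(1 * Om U1 U2 z) := by
  have hR0 : R0 ≠ 0 := by
    rw [← hR z]; exact (h.pos z).ne'
  have c11 := contDiff_d1 h.hU1
  have c12 := contDiff_d2 h.hU1
  have c21 := contDiff_d1 h.hU2
  have c22 := contDiff_d2 h.hU2
  have v1 := hasD_V1 (b := b) (c := c) h.hU1 z
  have v2 := hasD_V2 (b := b) (c := c) h.hU2 z
  have u1 := hasD_of_diff (h.hU1.differentiable two_ne_zero z)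
  have u2 := hasD_of_diff (h.hU2.differentiable two_ne_zero z)
  have D11 := hasD_of_diff (c11.differentiable one_ne_zero z)
  have D12 := hasD_of_diff (c12.differentiable one_ne_zero z)
  have D21 := hasD_of_diff (c21.differentiable one_ne_zero z)
  have D22 := hasD_of_diff (c22.differentiable one_ne_zero z)
  have E1 := (hasD_const R0 z).mul ((((hasD_const (1 - b) z).mul u1).add
    ((hasD_const c z).mul u2)).add ((v1.mul D11).add (v2.mul D12)))
  have E2 := (hasD_const R0 z).mul ((((hasD_const (1 - b) z).mul u2).sub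
    ((hasD_const c z).mul u1)).add ((v1.mul D21).add (v2.mul D22)))
  have f1 : d1 P = fun w => -(R0 * (((1 - b) * U1 w + c * U2 w) +
      (V1 b c U1 w * d1 U1 w + V2 b c U2 w * d2 U1 w))) := by
    funext w
    have := h.m1 w
    rw [hR w] at this
    linarith
  have f2 : d2 P = fun w => -(R0 * (((1 - b) * U2 w - c * U1 w) +
      (V1 b c U1 w * d1 U2 w + V2 b c U2 w * d2 U2 w))) := by
    funext w
    have := h.m2 w
    rw [hR w] at this
    linarith
  have sP := d1_d2 h.hP z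
  rw [f1, f2, E1.neg.d2, E2.neg.d1] at sP
  have o := (D21.sub D12)
  have o1 : d1 (Om U1 U2) z = _ := o.d1
  have o2 : d2 (Om U1 U2) z = _ := o.d2
  rw [o1, o2]
  have s1 := d1_d2 h.hU1 z
  have s2 := d1_d2 h.hU2 z
  have dv := h.div z
  have hO : Om U1 U2 z = d1 U2 z - d2 U1 z := rfl
  rw [hO]
  have key : R0 * (V1 b c U1 z * (d1 (d1 U2) z - d1 (d2 U1) z) + V2 b c U2 z *
      (d2 (d1 U2) z - d2 (d2 U1) z) + (d1 U2 z - d2 U1 z)) = 0 := by
    linear_combination -sP - R0 * V1 b c U1 z * s1 - R0 * V2 b c U2 z * s2 -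
      R0 * (d1 U2 z - d2 U1 z) * dv
  have key2 := (mul_eq_zero.mp key).resolve_left hR0
  linarith

/-- constant density and `D U → 0`: the velocity profile is constant -/
theorem const_density {b c R0 : ℝ} {R U1 U2 P : ℂ → ℝ} (h : Profile b c R U1 U2 P) (hb : 0 < b)
    (hR : ∀ z, R z = R0)
    (h11 : Tendsto (d1 U1) (cocompact ℂ) (𝓝 0)) (h12 : Tendsto (d2 U1) (cocompact ℂ) (𝓝 0))
    (h21 : Tendsto (d1 U2) (cocompact ℂ) (𝓝 0)) (z : ℂ) : U1 z = U1 0 ∧ U2 z = U2 0 := by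
  have hOm : ∀ w, Om U1 U2 w = 0 := by
    refine transport_zero (k := 2 * b) (l := 1) (contDiff_V1 (h.hU1.of_le one_le_two'))
      (contDiff_V2 (h.hU2.of_le one_le_two')) (contDiff_Om h.hU1 h.hU2) (by linarith) zero_le_one
      h.divV (vorticity h hR) ?_
    have := h21.sub h12
    rw [sub_zero] at this
    exact this
  have hent := entire h.hU1 h.hU2 h.div hOm
  set f : ℂ → ℂ := fun z => (U1 z : ℂ) - (U2 z : ℂ) * I with hf
  have hder : ∀ w, deriv f w = (d1 U1 w : ℂ) - (d1 U2 w : ℂ) * I := by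
    intro w
    have e1 : HasFDerivAt (fun z => (U1 z : ℂ)) (ofRealCLM.comp (fderiv ℝ U1 w)) w :=
      ofRealCLM.hasFDerivAt.comp w (h.hU1.differentiable two_ne_zero w).hasFDerivAt
    have e2 : HasFDerivAt (fun z => (U2 z : ℂ)) (ofRealCLM.comp (fderiv ℝ U2 w)) w :=
      ofRealCLM.hasFDerivAt.comp w (h.hU2.differentiable two_ne_zero w).hasFDerivAt
    have e := e1.sub (e2.mul_const I)
    have e3 := (hent w).hasDerivAt.hasFDerivAt.restrictScalars ℝ
    have e4 := e3.unique e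
    have e5 := congrArg (fun L : ℂ →L[ℝ] ℂ => L 1) e4
    simp at e5
    rw [e5]
    unfold d1
    ring
  have hd : Differentiable ℂ (deriv f) := by
    have : ContDiff ℂ 2 f := hent.contDiff
    have h2 : ContDiff ℂ 1 (deriv f) := this.deriv' (n := 1)
    exact h2.differentiable one_ne_zero
  have hlim : Tendsto (deriv f) (cocompact ℂ) (𝓝 0) := by
    have a1 : Tendsto (fun z => (d1 U1 z : ℂ)) (cocompact ℂ) (𝓝 0) := tendsto_ofReal0 h11
    have a2 : Tendsto (fun z => (d1 U2 z : ℂ)) (cocompact ℂ) (𝓝 0) := tendsto_ofReal0 h21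
    have a3 := a1.sub (a2.mul_const I)
    rw [zero_mul, sub_zero] at a3
    exact a3.congr fun w => (hder w).symm
  have hz0 : ∀ w, deriv f w = 0 := fun w => hd.apply_eq_of_tendsto_cocompact w hlim
  have hc := is_const_of_deriv_eq_zero hent hz0 z 0
  have r1 := congrArg Complex.re hc
  have r2 := congrArg Complex.im hc
  simp [hf] at r1 r2
  exact ⟨r1, r2⟩

end Pool.Agent.Lib.MP_6c0de8_an
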