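import Pool.Agent.Lib.MP_6c0de8_an.Poten
import Pool.Agent.Lib.MP_6c0de8_an.HalfB
import Pool.Agent.Lib.MP_6c0de8_an.Far

/-! Energy, behaviour at infinity of the profiles, and the main theorem. -/

set_option autoImplicit false

namespace Pool.Agent.Lib.MP_6c0de8_an

open MeasureTheory Filter Topology Complex Metric

section main

variable {T0 T r : ℝ} {x0 : ℂ} {ρ p : ℝ → ℂ → ℝ} {u : ℝ → ℂ → ℂ} {β : ℂ} {R : ℂ → ℝ} {U : ℂ → ℂ}

/-! ### energy -/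

theorem det_mulL (a : ℂ) : (mulL a).det = normSq a := by
  have h := Algebra.norm_complex_apply a
  rw [Algebra.norm_apply] at h
  rw [← h]
  rfl

theorem image_ball {a : ℂ} (ha : a ≠ 0) :
    (fun y : ℂ => x0 + a * y) '' ball 0 (r / ‖a‖) = ball x0 r := by
  have hn : 0 < ‖a‖ := norm_pos_iff.mpr ha
  ext x
  constructor
  · rintro ⟨y, hy, rfl⟩
    rw [mem_ball_zero_iff, lt_div_iff₀ hn, mul_comm] at hy
    exact mem_ball_of hy
  · intro hx
    rw [mem_ball, dist_eq_norm] at hx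
    refine ⟨(x - x0) / a, ?_, ?_⟩
    · rw [mem_ball_zero_iff, norm_div]
      exact div_lt_div_of_pos_right hx hn
    · simp only
      field_simp
      ring

theorem energy_scaled (hs : SelfSimilar T0 T x0 r ρ u β R U) (hr : 0 < r) {E : ℝ}
    (hE : ∀ t ∈ Set.Ioo T0 T, ∫ x in ball x0 r, ‖u t x‖ ^ 2 ≤ E) {τ : ℝ} (h1 : 0 < τ)
    (h2 : τ < T - T0) :
    ∫ y in ball (0 : ℂ) (r / ‖Lam β τ‖), ‖U y‖ ^ 2 ≤ E * (τ ^ 2 / ‖Lam β τ‖ ^ 4) := by
  have hL : Lam β τ ≠ 0 := Lam_ne h1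
  have hn : 0 < ‖Lam β τ‖ := norm_Lam_pos h1
  have h3 := hE (T - τ) (mem_of h1 h2)
  rw [← image_ball (x0 := x0) hL] at h3
  rw [integral_image_eq_integral_abs_det_fderiv_smul volume measurableSet_ball
    (fun y _ => (hasFDerivAt_aff' (Lam β τ) x0 y).hasFDerivWithinAt)
    (fun y _ z _ hyz => by
      have : Lam β τ * y = Lam β τ * z := add_left_cancel hyz
      exact mul_left_cancel₀ hL this)] at h3
  have h4 : ∫ y in ball (0 : ℂ) (r / ‖Lam β τ‖), |(mulL (Lam β τ)).det| •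
      ‖u (T - τ) (x0 + Lam β τ * y)‖ ^ 2 =
      ∫ y in ball (0 : ℂ) (r / ‖Lam β τ‖), (‖Lam β τ‖ ^ 4 / τ ^ 2) * ‖U y‖ ^ 2 := by
    refine setIntegral_congr_fun measurableSet_ball fun y hy => ?_
    rw [mem_ball_zero_iff, lt_div_iff₀ hn, mul_comm] at hy
    have hτ : (τ : ℂ) ≠ 0 := by exact_mod_cast h1.ne'
    have uU : u (T - τ) (x0 + Lam β τ * y) = (Lam β τ / τ) * U y := by
      rw [(hs.pull h1 h2 hy).2]
      field_simp
    rw [uU, det_mulL, normSq_eq_norm_sq, abs_of_nonneg (by positivity), norm_mul, norm_div,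
      smul_eq_mul, Complex.norm_real, Real.norm_eq_abs, abs_of_pos h1]
    field_simp
  rw [h4, integral_const_mul] at h3
  have h5 : 0 < ‖Lam β τ‖ ^ 4 / τ ^ 2 := by positivity
  have h6 : τ ^ 2 / ‖Lam β τ‖ ^ 4 = (‖Lam β τ‖ ^ 4 / τ ^ 2)⁻¹ := by rw [inv_div]
  rw [h6, ← div_eq_mul_inv, le_div_iff₀ h5]
  linarith

theorem energy_ball (hs : SelfSimilar T0 T x0 r ρ u β R U) (hU : Continuous U) (hr : 0 < r) {E : ℝ}
    (hE : ∀ t ∈ Set.Ioo T0 T, ∫ x in ball x0 r, ‖u t x‖ ^ 2 ≤ E) {τ : ℝ} (h1 : 0 < τ)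
    (h2 : τ < T - T0) {s : ℝ} (h3 : ‖Lam β τ‖ * s < r) :
    ∫ y in ball (0 : ℂ) s, ‖U y‖ ^ 2 ≤ E * (τ ^ 2 / ‖Lam β τ‖ ^ 4) := by
  have hn : 0 < ‖Lam β τ‖ := norm_Lam_pos h1
  refine le_trans ?_ (energy_scaled hs hr hE h1 h2)
  refine setIntegral_mono_set ?_ (Eventually.of_forall fun y => by positivity) ?_
  · have hc : Continuous fun y => ‖U y‖ ^ 2 := hU.norm.pow 2
    exact (hc.continuousOn.integrableOn_compact
      (isCompact_closedBall (0 : ℂ) (r / ‖Lam β τ‖))).mono_set ball_subset_closedBall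
  · refine (ball_subset_ball ?_).eventuallyLE
    rw [le_div_iff₀ hn, mul_comm]
    exact h3.le

theorem tendsto_rpow_zero {e : ℝ} (he : 0 < e) : Tendsto (fun τ : ℝ => τ ^ e) (𝓝[>] 0) (𝓝 0) := by
  have hc : ContinuousAt (fun τ : ℝ => τ ^ e) 0 :=
    Real.continuousAt_rpow_const 0 e (Or.inr he.le)
  have := hc.tendsto.mono_left (nhdsWithin_le_nhds (s := Set.Ioi 0))
  simpa [Real.zero_rpow he.ne'] using this

/-- subcritical exponents: the energy forces `U = 0` -/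
theorem U_zero (hs : SelfSimilar T0 T x0 r ρ u β R U) (hU : Continuous U) (hT : T0 < T) (hr : 0 < r)
    (hβ : 0 < β.re) (hβ2 : β.re < 1 / 2) {E : ℝ}
    (hE : ∀ t ∈ Set.Ioo T0 T, ∫ x in ball x0 r, ‖u t x‖ ^ 2 ≤ E) (y : ℂ) : U y = 0 := by
  have hc : Continuous fun y => ‖U y‖ ^ 2 := hU.norm.pow 2
  have hle : ∫ y in ball (0 : ℂ) (‖y‖ + 1), ‖U y‖ ^ 2 ≤ 0 := by
    have hlim : Tendsto (fun τ : ℝ => E * τ ^ (2 - 4 * β.re)) (𝓝[>] 0) (𝓝 0) := by
      simpa using (tendsto_rpow_zero (e := 2 - 4 * β.re) (by linarith)).const_mul E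
    refine ge_of_tendsto hlim ?_
    filter_upwards [eventually_small (β := β) hT hr hβ (‖y‖ + 1)] with τ hτ
    obtain ⟨h1, h2, h3⟩ := hτ
    refine (energy_ball hs hU hr hE h1 h2 h3).trans (le_of_eq ?_)
    congr 1
    rw [norm_Lam h1, ← Real.rpow_natCast (τ ^ β.re) 4, ← Real.rpow_mul h1.le, Real.rpow_sub h1,
      Real.rpow_two]
    congr 2
    push_cast
    ring
  have hint : IntegrableOn (fun y => ‖U y‖ ^ 2) (ball (0 : ℂ) (‖y‖ + 1)) :=
    (hc.continuousOn.integrableOn_compact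
      (isCompact_closedBall (0 : ℂ) (‖y‖ + 1))).mono_set ball_subset_closedBall
  have h0 : ∫ y in ball (0 : ℂ) (‖y‖ + 1), ‖U y‖ ^ 2 = 0 :=
    le_antisymm hle (integral_nonneg fun y => by positivity)
  have h1 := (integral_eq_zero_iff_of_nonneg (fun y => by positivity) hint).mp h0
  have h2 := Measure.eqOn_open_of_ae_eq h1 isOpen_ball hc.continuousOn continuousOn_const
  have h3 := h2 (show y ∈ ball (0 : ℂ) (‖y‖ + 1) by rw [mem_ball_zero_iff]; linarith)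
  simpa using h3

/-- critical exponent: `U` is square integrable -/
theorem U_L2 (hs : SelfSimilar T0 T x0 r ρ u β R U) (hU : Continuous U) (hT : T0 < T) (hr : 0 < r)
    (hβ2 : β.re = 1 / 2) {E : ℝ}
    (hE : ∀ t ∈ Set.Ioo T0 T, ∫ x in ball x0 r, ‖u t x‖ ^ 2 ≤ E) :
    Integrable fun y => ‖U y‖ ^ 2 := by
  have hβ : 0 < β.re := by rw [hβ2]; norm_num
  have hc : Continuous fun y => ‖U y‖ ^ 2 := hU.norm.pow 2
  refine (aecover_ball (μ := (volume : Measure ℂ)) (x := (0 : ℂ)) (r := fun n : ℕ => (n : ℝ))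
    tendsto_natCast_atTop_atTop).integrable_of_integral_norm_bounded E
    (fun n => (hc.continuousOn.integrableOn_compact
      (isCompact_closedBall (0 : ℂ) n)).mono_set ball_subset_closedBall)
    (Eventually.of_forall fun n => ?_)
  obtain ⟨τ, h1, h2, h3⟩ := exists_small (β := β) hT hr hβ n
  have h4 := energy_ball hs hU hr hE h1 h2 h3
  have h5 : ‖Lam β τ‖ ^ 4 = τ ^ 2 := by
    rw [norm_Lam h1, hβ2, ← Real.rpow_natCast (τ ^ (1 / 2 : ℝ)) 4, ← Real.rpow_mul h1.le,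
      ← Real.rpow_two]
    congr 1
    norm_num
  rw [h5, div_self (by positivity), mul_one] at h4
  refine le_trans (le_of_eq ?_) h4
  refine integral_congr_ae (Eventually.of_forall fun y => ?_)
  simp

/-- a constant velocity profile vanishes if `Re β < 1` -/
theorem const_zero (hs : SelfSimilar T0 T x0 r ρ u β R U) (hT : T0 < T) (hr : 0 < r)
    (hβ : 0 < β.re) (hβ1 : β.re < 1) {E : ℝ}
    (hE : ∀ t ∈ Set.Ioo T0 T, ∫ x in ball x0 r, ‖u t x‖ ^ 2 ≤ E) {U0 : ℂ} (hU : ∀ y, U y = U0) :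
    U0 = 0 := by
  have hle : ‖U0‖ ^ 2 * (Real.pi * r ^ 2) ≤ 0 := by
    have hlim : Tendsto (fun τ : ℝ => E * τ ^ (2 - 2 * β.re)) (𝓝[>] 0) (𝓝 0) := by
      simpa using (tendsto_rpow_zero (e := 2 - 2 * β.re) (by linarith)).const_mul E
    refine ge_of_tendsto hlim ?_
    filter_upwards [eventually_small (β := β) hT hr hβ 0] with τ hτ
    obtain ⟨h1, h2, _⟩ := hτ
    have hn : 0 < ‖Lam β τ‖ := norm_Lam_pos h1
    have h4 := energy_scaled hs hr hE h1 h2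
    have h5 : ∫ y in ball (0 : ℂ) (r / ‖Lam β τ‖), ‖U y‖ ^ 2 =
        ‖U0‖ ^ 2 * (Real.pi * (r / ‖Lam β τ‖) ^ 2) := by
      have e : (fun y : ℂ => ‖U y‖ ^ 2) = fun _ => ‖U0‖ ^ 2 := by
        funext y
        rw [hU y]
      rw [e, setIntegral_const, smul_eq_mul, mul_comm]
      congr 1
      rw [Measure.real, Complex.volume_ball, ENNReal.toReal_mul, ENNReal.toReal_pow,
        ENNReal.toReal_ofReal (by positivity)]
      simp
      ring
    rw [h5] at h4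
    have h6 : τ ^ (2 - 2 * β.re) = τ ^ 2 / ‖Lam β τ‖ ^ 2 := by
      rw [norm_Lam h1, ← Real.rpow_natCast (τ ^ β.re) 2, ← Real.rpow_mul h1.le, Real.rpow_sub h1,
        Real.rpow_two]
      congr 2
      push_cast
      ring
    rw [h6]
    have h7 := mul_le_mul_of_nonneg_right h4 (by positivity : 0 ≤ ‖Lam β τ‖ ^ 2)
    have e1 : ‖U0‖ ^ 2 * (Real.pi * (r / ‖Lam β τ‖) ^ 2) * ‖Lam β τ‖ ^ 2 =
        ‖U0‖ ^ 2 * (Real.pi * r ^ 2) := by
      field_simp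
    have e2 : E * (τ ^ 2 / ‖Lam β τ‖ ^ 4) * ‖Lam β τ‖ ^ 2 = E * (τ ^ 2 / ‖Lam β τ‖ ^ 2) := by
      field_simp
    rw [e1, e2] at h7
    exact h7
  have h1 : ‖U0‖ ^ 2 ≤ 0 := by
    by_contra hne
    rw [not_le] at hne
    have : 0 < ‖U0‖ ^ 2 * (Real.pi * r ^ 2) := by positivity
    linarith
  have h2 : ‖U0‖ = 0 := by
    have := le_antisymm h1 (sq_nonneg _)
    exact pow_eq_zero_iff two_ne_zero |>.mp this
  exact norm_eq_zero.mp h2

/-! ### behaviour at infinity -/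

/-- the time at which `|τ^β| = θ` -/
noncomputable def tm (β : ℂ) (θ : ℝ) : ℝ := θ ^ (β.re)⁻¹

theorem tm_pos {θ : ℝ} (hθ : 0 < θ) : 0 < tm β θ := Real.rpow_pos_of_pos hθ _

theorem norm_Lam_tm (hβ : 0 < β.re) {θ : ℝ} (hθ : 0 < θ) : ‖Lam β (tm β θ)‖ = θ := by
  rw [norm_Lam (tm_pos hθ)]
  exact Real.rpow_inv_rpow hθ.le hβ.ne'

theorem tm_tendsto (hβ : 0 < β.re) {l : Filter ℂ} {f : ℂ → ℝ} (hf : Tendsto f l (𝓝 0)) :
    Tendsto (fun y => tm β (f y)) l (𝓝 0) := by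
  have hc : ContinuousAt (fun τ : ℝ => τ ^ (β.re)⁻¹) 0 :=
    Real.continuousAt_rpow_const 0 _ (Or.inr (inv_nonneg.mpr hβ.le))
  have h := hc.tendsto
  rw [Real.zero_rpow (inv_ne_zero hβ.ne')] at h
  exact h.comp hf

theorem far_bounds (h : LocalEuler T0 T x0 r ρ p u) (hs : SelfSimilar T0 T x0 r ρ u β R U)
    (hR : ContDiff ℝ 2 R) (hU : ContDiff ℝ 2 U) {M : ℝ}
    (hM : ∀ t ∈ Set.Ioo T0 T, ∀ x, r / 2 ≤ ‖x - x0‖ → ‖x - x0‖ < r →
      ‖fderiv ℝ (u t) x‖ ≤ M ∧ ‖fderiv ℝ (ρ t) x‖ ≤ M ∧ ‖fderiv ℝ (p t) x‖ ≤ M)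
    {P : ℂ → ℝ} (hP : ∀ τ : ℝ, 0 < τ → τ < T - T0 → ∀ y : ℂ, ‖Lam β τ‖ * ‖y‖ < r →
        P =ᶠ[𝓝 y] Plo T x0 p β τ) {τ : ℝ} (h1 : 0 < τ) (h2 : τ < T - T0) {y : ℂ}
    (hy1 : r / 2 ≤ ‖Lam β τ‖ * ‖y‖) (hy : ‖Lam β τ‖ * ‖y‖ < r) :
    ‖fderiv ℝ U y‖ ≤ M * τ ∧ ‖fderiv ℝ R y‖ ≤ M * ‖Lam β τ‖ ∧
      ‖fderiv ℝ P y‖ ≤ M * (τ ^ 2 / ‖Lam β τ‖) := by
  have hL : Lam β τ ≠ 0 := Lam_ne h1
  have hn : 0 < ‖Lam β τ‖ := norm_Lam_pos h1
  have hτ : (τ : ℂ) ≠ 0 := by exact_mod_cast h1.ne'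
  have e0 : ‖x0 + Lam β τ * y - x0‖ = ‖Lam β τ‖ * ‖y‖ := by
    rw [add_sub_cancel_left, norm_mul]
  obtain ⟨m1, m2, m3⟩ := hM (T - τ) (mem_of h1 h2) (x0 + Lam β τ * y) (by rw [e0]; exact hy1)
    (by rw [e0]; exact hy)
  have hM0 : 0 ≤ M := (norm_nonneg _).trans m1
  refine ⟨?_, ?_, ?_⟩
  · refine ContinuousLinearMap.opNorm_le_bound _ (by positivity) fun v => ?_
    have e := fderiv_u hU hs h1 h2 hy (Lam β τ * v)
    rw [← mul_assoc, inv_mul_cancel₀ hL, one_mul] at e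
    have e' : fderiv ℝ U y v = (τ / Lam β τ) *
        fderiv ℝ (u (T - τ)) (x0 + Lam β τ * y) (Lam β τ * v) := by
      rw [e]
      field_simp
    rw [e', norm_mul, norm_div, Complex.norm_real, Real.norm_eq_abs, abs_of_pos h1]
    have b := (fderiv ℝ (u (T - τ)) (x0 + Lam β τ * y)).le_opNorm (Lam β τ * v)
    rw [norm_mul] at b
    calc τ / ‖Lam β τ‖ * ‖fderiv ℝ (u (T - τ)) (x0 + Lam β τ * y) (Lam β τ * v)‖
        ≤ τ / ‖Lam β τ‖ * (M * (‖Lam β τ‖ * ‖v‖)) := by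
          refine mul_le_mul_of_nonneg_left (b.trans ?_) (by positivity)
          exact mul_le_mul_of_nonneg_right m1 (by positivity)
      _ = M * τ * ‖v‖ := by field_simp
  · refine ContinuousLinearMap.opNorm_le_bound _ (by positivity) fun v => ?_
    have e := fderiv_rho hR hs h1 h2 hy (Lam β τ * v)
    rw [← mul_assoc, inv_mul_cancel₀ hL, one_mul] at e
    rw [← e]
    have b := (fderiv ℝ (ρ (T - τ)) (x0 + Lam β τ * y)).le_opNorm (Lam β τ * v)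
    rw [norm_mul] at b
    refine b.trans ?_
    rw [mul_assoc]
    exact mul_le_mul_of_nonneg_right m2 (by positivity)
  · refine ContinuousLinearMap.opNorm_le_bound _ (by positivity) fun v => ?_
    have e : fderiv ℝ P y = fderiv ℝ (Plo T x0 p β τ) y := (hP τ h1 h2 y hy).fderiv_eq
    rw [e, Plo_fderiv h h1 h2 hy v, norm_mul, Real.norm_eq_abs, abs_of_nonneg (by positivity)]
    have b := (fderiv ℝ (p (T - τ)) (x0 + Lam β τ * y)).le_opNorm (Lam β τ * v)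
    rw [norm_mul ] at b
    calc τ ^ 2 / ‖Lam β τ‖ ^ 2 * ‖fderiv ℝ (p (T - τ)) (x0 + Lam β τ * y) (Lam β τ * v)‖
        ≤ τ ^ 2 / ‖Lam β τ‖ ^ 2 * (M * (‖Lam β τ‖ * ‖v‖)) := by
          refine mul_le_mul_of_nonneg_left (b.trans ?_) (by positivity)
          exact mul_le_mul_of_nonneg_right m3 (by positivity)
      _ = M * (τ ^ 2 / ‖Lam β τ‖) * ‖v‖ := by field_simp

/-- the scale `θ = 3 r / (4 |y|)` -/
theorem theta_tendsto (r : ℝ) : Tendsto (fun y : ℂ => 3 * r / 4 / ‖y‖) (cocompact ℂ) (𝓝 0) :=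
  tendsto_const_nhds.div_atTop tendsto_norm_cocompact_atTop

theorem far_eventually (h : LocalEuler T0 T x0 r ρ p u) (hs : SelfSimilar T0 T x0 r ρ u β R U)
    (hR : ContDiff ℝ 2 R) (hU : ContDiff ℝ 2 U) (hT : T0 < T) (hr : 0 < r) (hβ : 0 < β.re) {M : ℝ}
    (hM : ∀ t ∈ Set.Ioo T0 T, ∀ x, r / 2 ≤ ‖x - x0‖ → ‖x - x0‖ < r →
      ‖fderiv ℝ (u t) x‖ ≤ M ∧ ‖fderiv ℝ (ρ t) x‖ ≤ M ∧ ‖fderiv ℝ (p t) x‖ ≤ M)
    {P : ℂ → ℝ} (hP : ∀ τ : ℝ, 0 < τ → τ < T - T0 → ∀ y : ℂ, ‖Lam β τ‖ * ‖y‖ < r →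
        P =ᶠ[𝓝 y] Plo T x0 p β τ) :
    ∀ᶠ y : ℂ in cocompact ℂ, ‖fderiv ℝ U y‖ ≤ M * tm β (3 * r / 4 / ‖y‖) ∧
      ‖fderiv ℝ R y‖ ≤ M * (3 * r / 4 / ‖y‖) ∧
      ‖fderiv ℝ P y‖ ≤ M * (tm β (3 * r / 4 / ‖y‖) ^ 2 / (3 * r / 4 / ‖y‖)) := by
  have e1 := (tm_tendsto hβ (theta_tendsto r)).eventually (gt_mem_nhds (sub_pos.mpr hT))
  filter_upwards [e1, tendsto_norm_cocompact_atTop.eventually_ge_atTop 1] with y hy1 hy2
  have hy0 : 0 < ‖y‖ := by linarith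
  have hθ : 0 < 3 * r / 4 / ‖y‖ := by positivity
  have hn := norm_Lam_tm hβ hθ
  have e2 : 3 * r / 4 / ‖y‖ * ‖y‖ = 3 * r / 4 := by field_simp
  have := far_bounds h hs hR hU hM hP (tm_pos hθ) hy1 (y := y) (by rw [hn, e2]; linarith)
    (by rw [hn, e2]; linarith)
  rwa [hn] at this

/-! ### the velocity vanishes: the density is constant -/

theorem density_const (hR : ContDiff ℝ 2 R) (hβ : 0 < β.re)
    (htr : ∀ z, fderiv ℝ R z (β * z) = 0) (z : ℂ) : R z = R 0 := by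
  have hd : ∀ s : ℝ, HasDerivAt (fun s : ℝ => R (exp (β * s) * z)) 0 s := by
    intro s
    have e1 : HasDerivAt (fun w : ℂ => exp (β * w) * z) (exp (β * s) * β * z) (s : ℂ) := by
      have := ((hasDerivAt_id (s : ℂ)).const_mul β).cexp.mul_const z
      simpa using this
    have e2 := e1.comp_ofReal
    have e3 := (hR.differentiable two_ne_zero (exp (β * s) * z)).hasFDerivAt.comp_hasDerivAt s e2
    have e4 : exp (β * s) * β * z = β * (exp (β * s) * z) := by ring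
    rw [e4, htr] at e3
    exact e3
  have hc : ∀ s : ℝ, R (exp (β * s) * z) = R z := by
    intro s
    have := is_const_of_deriv_eq_zero (fun s => (hd s).differentiableAt) (fun s => (hd s).deriv) s 0
    simpa using this
  have hlim : Tendsto (fun s : ℝ => R (exp (β * s) * z)) atBot (𝓝 (R 0)) := by
    refine (hR.continuous.tendsto 0).comp ?_
    rw [tendsto_zero_iff_norm_tendsto_zero]
    have e : (fun s : ℝ => ‖exp (β * s) * z‖) = fun s : ℝ => Real.exp (β.re * s) * ‖z‖ := by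
      funext s
      rw [norm_mul, Complex.norm_exp]
      simp
    rw [e]
    have h1 : Tendsto (fun s : ℝ => Real.exp (β.re * s)) atBot (𝓝 0) :=
      Real.tendsto_exp_atBot.comp (tendsto_id.const_mul_atBot hβ)
    simpa using h1.mul_const ‖z‖
  have h2 : Tendsto (fun s : ℝ => R (exp (β * s) * z)) atBot (𝓝 (R z)) := by
    simp only [hc]
    exact tendsto_const_nhds
  exact tendsto_nhds_unique h2 hlim

theorem Profile.sub_const {b c : ℝ} {R U1 U2 P : ℂ → ℝ} (h : Profile b c R U1 U2 P) (L : ℝ) :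
    Profile b c R U1 U2 (fun z => P z - L) := by
  have e1 : ∀ z, d1 (fun z => P z - L) z = d1 P z := by
    intro z
    have := ((hasD_of_diff (h.hP.differentiable two_ne_zero z)).sub (hasD_const L z)).d1
    rw [this, sub_zero]
  have e2 : ∀ z, d2 (fun z => P z - L) z = d2 P z := by
    intro z
    have := ((hasD_of_diff (h.hP.differentiable two_ne_zero z)).sub (hasD_const L z)).d2
    rw [this, sub_zero]
  refine ⟨h.hR, h.hU1, h.hU2, h.hP.sub contDiff_const, h.pos, h.div, h.tr, ?_, ?_⟩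
  · intro z
    rw [e1]
    exact h.m1 z
  · intro z
    rw [e2]
    exact h.m2 z

end main

end Pool.Agent.Lib.MP_6c0de8_an
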