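import Pool.Agent.Lib.MP_6c0de8_an.Profile

/-! The energy-critical exponent: the profiles are trivial. -/

set_option autoImplicit false

namespace Pool.Agent.Lib.MP_6c0de8_an

open MeasureTheory Filter Topology Complex

variable {c : ℝ} {R U1 U2 P : ℂ → ℝ}

/-- the factor `ν` with `∇ R = ν i V` -/
noncomputable def nu (c : ℝ) (R U1 U2 : ℂ → ℝ) (z : ℂ) : ℝ :=
  if Q c U1 U2 z ≠ 0 then - (R z * Om U1 U2 z * (Q c U1 U2 z)⁻¹)
  else (V1 (1 / 2) c U1 z * d2 R z - V2 (1 / 2) c U2 z * d1 R z) *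
    (V1 (1 / 2) c U1 z ^ 2 + V2 (1 / 2) c U2 z ^ 2)⁻¹

theorem V_ne {z : ℂ} (hz : z ≠ 0) (hQ : Q c U1 U2 z = 0) :
    V1 (1 / 2) c U1 z ^ 2 + V2 (1 / 2) c U2 z ^ 2 ≠ 0 := by
  have h1 := Q_eq (c := c) (U1 := U1) (U2 := U2) z
  rw [hQ] at h1
  have h2 : 0 < z.re ^ 2 + z.im ^ 2 := by
    have := Complex.normSq_pos.mpr hz
    rw [Complex.normSq_apply] at this
    nlinarith
  have h3 : 0 < (1 / 4 + c ^ 2) * (z.re ^ 2 + z.im ^ 2) := by positivity
  intro h4
  linarith

/-- `∇ R = ν i V` -/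
theorem grad_R (h : Profile (1 / 2) c R U1 U2 P) (hP : ∀ z, P z = R z * Q c U1 U2 z) {z : ℂ}
    (hz : z ≠ 0) : d1 R z = - (nu c R U1 U2 z * V2 (1 / 2) c U2 z) ∧
      d2 R z = nu c R U1 U2 z * V1 (1 / 2) c U1 z := by
  obtain ⟨k1, k2⟩ := key h hP z
  by_cases hQ : Q c U1 U2 z = 0
  · have hV := V_ne (U1 := U1) (U2 := U2) hz hQ
    have tr := h.tr z
    unfold nu
    rw [if_neg (not_not.mpr hQ)]
    constructor
    · field_simp
      linear_combination (V1 (1 / 2) c U1 z) * tr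
    · field_simp
      linear_combination (V2 (1 / 2) c U2 z) * tr
  · unfold nu
    rw [if_pos hQ]
    constructor
    · field_simp
      linear_combination k1
    · field_simp
      linear_combination k2

theorem contDiff_Om (h1 : ContDiff ℝ 2 U1) (h2 : ContDiff ℝ 2 U2) : ContDiff ℝ 1 (Om U1 U2) :=
  (contDiff_d1 h2).sub (contDiff_d2 h1)

theorem contDiffAt_nu (h : Profile (1 / 2) c R U1 U2 P) (hP : ∀ z, P z = R z * Q c U1 U2 z) {z : ℂ}
    (hz : z ≠ 0) : ContDiffAt ℝ 1 (nu c R U1 U2) z := by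
  have hQc : Continuous (Q c U1 U2) := (contDiff_Q h.hU1 h.hU2).continuous
  by_cases hQ : Q c U1 U2 z = 0
  · have hV := V_ne (U1 := U1) (U2 := U2) hz hQ
    have cV1 : ContDiff ℝ 1 (V1 (1 / 2) c U1) := contDiff_V1 (h.hU1.of_le one_le_two')
    have cV2 : ContDiff ℝ 1 (V2 (1 / 2) c U2) := contDiff_V2 (h.hU2.of_le one_le_two')
    have hN : ContDiff ℝ 1 fun z => V1 (1 / 2) c U1 z ^ 2 + V2 (1 / 2) c U2 z ^ 2 :=
      (cV1.pow 2).add (cV2.pow 2)
    have e : nu c R U1 U2 =ᶠ[𝓝 z] fun z =>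
        (V1 (1 / 2) c U1 z * d2 R z - V2 (1 / 2) c U2 z * d1 R z) *
        (V1 (1 / 2) c U1 z ^ 2 + V2 (1 / 2) c U2 z ^ 2)⁻¹ := by
      have o1 : ∀ᶠ w in 𝓝 z, V1 (1 / 2) c U1 w ^ 2 + V2 (1 / 2) c U2 w ^ 2 ≠ 0 :=
        hN.continuous.continuousAt.eventually_ne hV
      have o2 : ∀ᶠ w in 𝓝 z, w ≠ 0 := eventually_ne_nhds hz
      filter_upwards [o1, o2] with w hw hw0
      obtain ⟨g1, g2⟩ := grad_R h hP hw0
      rw [g1, g2]
      field_simp
      ring
    refine ContDiffAt.congr_of_eventuallyEq ?_ e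
    exact ((cV1.mul (contDiff_d2 h.hR)).sub (cV2.mul (contDiff_d1 h.hR))).contDiffAt.mul
      (hN.contDiffAt.inv hV)
  · have e : nu c R U1 U2 =ᶠ[𝓝 z] fun z => - (R z * Om U1 U2 z * (Q c U1 U2 z)⁻¹) := by
      filter_upwards [hQc.continuousAt.eventually_ne hQ] with w hw
      unfold nu
      rw [if_pos hw]
    refine ContDiffAt.congr_of_eventuallyEq ?_ e
    exact (((h.hR.of_le one_le_two').mul (contDiff_Om h.hU1 h.hU2)).contDiffAt.mul
      (((contDiff_Q h.hU1 h.hU2).of_le one_le_two').contDiffAt.inv hQ)).neg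

/-- `V · ∇ ν = - ν` -/
theorem tr_nu (h : Profile (1 / 2) c R U1 U2 P) (hP : ∀ z, P z = R z * Q c U1 U2 z) {z : ℂ}
    (hz : z ≠ 0) : V1 (1 / 2) c U1 z * d1 (nu c R U1 U2) z + V2 (1 / 2) c U2 z * d2 (nu c R U1 U2) z =
      - nu c R U1 U2 z := by
  have hn := hasD_of_diff ((contDiffAt_nu h hP hz).differentiableAt one_ne_zero)
  have e1 := hn.mul (hasD_V1 (b := 1 / 2) (c := c) h.hU1 z)
  have e2 := hn.mul (hasD_V2 (b := 1 / 2) (c := c) h.hU2 z)
  have o : ∀ᶠ w in 𝓝 z, w ≠ 0 := eventually_ne_nhds hz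
  have f1 : d2 R =ᶠ[𝓝 z] fun w => nu c R U1 U2 w * V1 (1 / 2) c U1 w := by
    filter_upwards [o] with w hw
    exact (grad_R h hP hw).2
  have f2 : (fun w => - d1 R w) =ᶠ[𝓝 z] fun w => nu c R U1 U2 w * V2 (1 / 2) c U2 w := by
    filter_upwards [o] with w hw
    rw [(grad_R h hP hw).1]
    ring
  have g1 := (e1.congr f1).d1
  have g2 := (e2.congr f2).d2
  have g3 := ((hasD_of_diff ((contDiff_d1 h.hR).differentiable one_ne_zero z)).neg).d2
  rw [g3] at g2
  have g4 := d1_d2 h.hR z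
  have dv := h.div z
  linear_combination -g1 - g2 + g4 - (nu c R U1 U2 z) * dv

theorem half (h : Profile (1 / 2) c R U1 U2 P)
    (hP : ∀ z, P z = R z * Q c U1 U2 z)
    (hnu : Tendsto (nu c R U1 U2) (cocompact ℂ) (𝓝 0)) (z : ℂ) : R z = R 0 := by
  have cV1 : ContDiff ℝ 1 (V1 (1 / 2) c U1) := contDiff_V1 (h.hU1.of_le one_le_two')
  have cV2 : ContDiff ℝ 1 (V2 (1 / 2) c U2) := contDiff_V2 (h.hU2.of_le one_le_two')
  have cR : ContDiff ℝ 1 fun z => R z - R 0 := (h.hR.of_le one_le_two').sub contDiff_const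
  have key : ∀ ε δ : ℝ, 0 < ε → 0 < δ → ∀ z,
      phi ε 0 (nu c R U1 U2 z) * phi δ 0 (R z - R 0) = 0 := by
    intro ε δ hε hδ
    have hcd : ContDiff ℝ 1 fun z => phi ε 0 (nu c R U1 U2 z) * phi δ 0 (R z - R 0) := by
      rw [contDiff_iff_contDiffAt]
      intro w
      by_cases hw : w = 0
      · have e : (fun z => phi ε 0 (nu c R U1 U2 z) * phi δ 0 (R z - R 0)) =ᶠ[𝓝 w] fun _ => 0 := by
          have o : ∀ᶠ v in 𝓝 w, |R v - R 0| < δ := by
            have h1 : ContinuousAt (fun v => |R v - R 0|) w := cR.continuous.abs.continuousAt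
            refine h1.eventually_lt_const ?_
            rw [hw]
            simpa using hδ
          filter_upwards [o] with v hv
          rw [phi_eq_zero (n := 0) (ε := δ) (by rw [abs_of_pos hδ]; exact hv.le), mul_zero]
        exact contDiffAt_const.congr_of_eventuallyEq e
      · exact ((contDiff_phi ε 0).contDiffAt.comp w (contDiffAt_nu h hP hw)).mul
          ((contDiff_phi δ 0).comp cR).contDiffAt
    have hcs : HasCompactSupport fun z => phi ε 0 (nu c R U1 U2 z) * phi δ 0 (R z - R 0) :=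
      (phi_comp_compact hε 0 hnu).mul_right
    have hdv : ∀ z, V1 (1 / 2) c U1 z *
        d1 (fun z => phi ε 0 (nu c R U1 U2 z) * phi δ 0 (R z - R 0)) z + V2 (1 / 2) c U2 z *
        d2 (fun z => phi ε 0 (nu c R U1 U2 z) * phi δ 0 (R z - R 0)) z =
        - (nu c R U1 U2 z * dphi ε 0 (nu c R U1 U2 z)) * phi δ 0 (R z - R 0) := by
      intro w
      by_cases hw : w = 0
      · have e : (fun z => phi ε 0 (nu c R U1 U2 z) * phi δ 0 (R z - R 0)) =ᶠ[𝓝 w] fun _ => 0 := by
          have o : ∀ᶠ v in 𝓝 w, |R v - R 0| < δ := by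
            have h1 : ContinuousAt (fun v => |R v - R 0|) w := cR.continuous.abs.continuousAt
            refine h1.eventually_lt_const ?_
            rw [hw]
            simpa using hδ
          filter_upwards [o] with v hv
          rw [phi_eq_zero (n := 0) (ε := δ) (by rw [abs_of_pos hδ]; exact hv.le), mul_zero]
        rw [((hasD_const 0 w).congr e).d1, ((hasD_const 0 w).congr e).d2,
          phi_eq_zero (n := 0) (ε := δ) (x := R w - R 0) (by rw [hw, sub_self, abs_zero]; positivity)]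
        ring
      · have hn := hasD_of_diff ((contDiffAt_nu h hP hw).differentiableAt one_ne_zero)
        have e := (HasD.comp (hasDerivAt_phi ε 0 (nu c R U1 U2 w)) hn).mul
          (HasD.comp (hasDerivAt_phi δ 0 (R w - R 0))
            ((hasD_of_diff (h.hR.differentiable two_ne_zero w)).sub (hasD_const (R 0) w)))
        rw [e.d1, e.d2]
        have t1 := tr_nu h hP hw
        have t2 := h.tr w
        linear_combination (phi δ 0 (R w - R 0) * dphi ε 0 (nu c R U1 U2 w)) * t1 +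
          (phi ε 0 (nu c R U1 U2 w) * dphi δ 0 (R w - R 0)) * t2
    have hle : ∀ z, 2 * (1 / 2) * (phi ε 0 (nu c R U1 U2 z) * phi δ 0 (R z - R 0)) +
        - (nu c R U1 U2 z * dphi ε 0 (nu c R U1 U2 z)) * phi δ 0 (R z - R 0) ≤
        - (3 * (phi ε 0 (nu c R U1 U2 z) * phi δ 0 (R z - R 0))) := by
      intro w
      have h1 := mul_dphi_ge ε 0 (nu c R U1 U2 w)
      have h2 := phi_nonneg δ 0 (R w - R 0)
      have h3 := mul_le_mul_of_nonneg_right h1 h2
      push_cast at h3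
      nlinarith
    have hnn : ∀ z, 0 ≤ phi ε 0 (nu c R U1 U2 z) * phi δ 0 (R z - R 0) := fun z =>
      mul_nonneg (phi_nonneg _ _ _) (phi_nonneg _ _ _)
    refine eq_zero_of_le (c := 3) cV1 cV2 hcd hcs h.divV hnn (by norm_num) ?_ (Or.inr ?_)
    · intro w
      rw [hdv w, abs_of_nonpos (by linarith [hle w, hnn w])]
      linarith [hle w]
    · intro w
      rw [hdv w]
      linarith [hle w, hnn w]
  -- the gradient of `(R - R 0)²` vanishes
  have hgrad : ∀ z, R z - R 0 ≠ 0 → d1 R z = 0 ∧ d2 R z = 0 := by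
    intro w hw
    have hw0 : w ≠ 0 := by
      rintro rfl
      exact hw (sub_self _)
    have hnu0 : nu c R U1 U2 w = 0 := by
      by_contra hne
      have h1 : 0 < |nu c R U1 U2 w| / 2 := by positivity
      have h2 : 0 < |R w - R 0| / 2 := by positivity
      rcases mul_eq_zero.mp (key _ _ h1 h2 w) with h3 | h3
      · have := abs_le_of_phi h3
        rw [abs_of_pos h1] at this
        linarith
      · have := abs_le_of_phi h3
        rw [abs_of_pos h2] at this
        linarith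
    obtain ⟨g1, g2⟩ := grad_R h hP hw0
    rw [hnu0] at g1 g2
    exact ⟨by rw [g1]; ring, by rw [g2]; ring⟩
  have hconst : ∀ w, (R w - R 0) * (R w - R 0) = (R 0 - R 0) * (R 0 - R 0) := by
    intro w
    refine is_const_of_fderiv_eq_zero (𝕜 := ℝ) (f := fun w => (R w - R 0) * (R w - R 0))
      ((cR.mul cR).differentiable one_ne_zero) (fun v => ?_) w 0
    have e1 := (hasD_of_diff (h.hR.differentiable two_ne_zero v)).sub (hasD_const (R 0) v)
    have e := e1.mul e1
    rw [HasFDerivAt.fderiv e]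
    by_cases hv : R v - R 0 = 0
    · rw [hv]; simp
    · obtain ⟨g1, g2⟩ := hgrad v hv
      rw [g1, g2]; simp
  have := hconst z
  rw [sub_self, mul_zero, mul_self_eq_zero] at this
  linarith

end Pool.Agent.Lib.MP_6c0de8_an
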