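import Pool.Agent.Lib.MP_6c0de8_an.Reduce

/-! The potential and the profile equations. -/

set_option autoImplicit false

namespace Pool.Agent.Lib.MP_6c0de8_an

open MeasureTheory Filter Topology Complex Metric

section main

variable {T0 T r : ℝ} {x0 : ℂ} {ρ p : ℝ → ℂ → ℝ} {u : ℝ → ℂ → ℂ} {β : ℂ} {R : ℂ → ℝ} {U : ℂ → ℂ}

theorem clm_eq {E : Type} [NormedAddCommGroup E] [NormedSpace ℝ E] (L : ℂ →L[ℝ] E) (w : ℂ) :
    L w = w.re • L 1 + w.im • L I := by
  have h : w = w.re • (1 : ℂ) + w.im • I := by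
    apply Complex.ext <;> simp
  conv_lhs => rw [h]
  rw [map_add, map_smul, map_smul]

/-- minus the gradient of the pressure profile -/
noncomputable def G (β : ℂ) (R : ℂ → ℝ) (U : ℂ → ℂ) (y : ℂ) : ℂ :=
  (R y : ℂ) * ((1 - β) * U y + fderiv ℝ U y (β * y + U y))

/-- the local potential -/
noncomputable def Plo (T : ℝ) (x0 : ℂ) (p : ℝ → ℂ → ℝ) (β : ℂ) (τ : ℝ) (y : ℂ) : ℝ :=
  (τ ^ 2 / ‖Lam β τ‖ ^ 2) * (p (T - τ) (x0 + Lam β τ * y) - p (T - τ) x0)

theorem Plo_zero (τ : ℝ) : Plo T x0 p β τ 0 = 0 := by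
  unfold Plo
  rw [mul_zero, add_zero, sub_self, mul_zero]

theorem Plo_contDiffAt (h : LocalEuler T0 T x0 r ρ p u) {τ : ℝ} (h1 : 0 < τ) (h2 : τ < T - T0) {y : ℂ}
    (hy : ‖Lam β τ‖ * ‖y‖ < r) : ContDiffAt ℝ 2 (Plo T x0 p β τ) y := by
  have hc : ContDiffAt ℝ 2 (p (T - τ)) (x0 + Lam β τ * y) :=
    (h.smooth_p _ (mem_of h1 h2)).contDiffAt (isOpen_ball.mem_nhds (mem_ball_of hy))
  exact contDiffAt_const.mul ((hc.comp y (contDiff_aff' _ _).contDiffAt).sub contDiffAt_const)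

theorem Plo_fderiv (h : LocalEuler T0 T x0 r ρ p u) {τ : ℝ} (h1 : 0 < τ) (h2 : τ < T - T0) {y : ℂ}
    (hy : ‖Lam β τ‖ * ‖y‖ < r) (v : ℂ) : fderiv ℝ (Plo T x0 p β τ) y v =
      (τ ^ 2 / ‖Lam β τ‖ ^ 2) * fderiv ℝ (p (T - τ)) (x0 + Lam β τ * y) (Lam β τ * v) := by
  have hc : ContDiffAt ℝ 2 (p (T - τ)) (x0 + Lam β τ * y) :=
    (h.smooth_p _ (mem_of h1 h2)).contDiffAt (isOpen_ball.mem_nhds (mem_ball_of hy))
  have hd := (hc.differentiableAt two_ne_zero).hasFDerivAt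
  have h3 := ((hd.comp y (hasFDerivAt_aff' (Lam β τ) x0 y)).sub_const
    (p (T - τ) x0)).const_mul (τ ^ 2 / ‖Lam β τ‖ ^ 2)
  have h4 := h3.fderiv
  simp only [Function.comp_def] at h4
  have e : fderiv ℝ (Plo T x0 p β τ) y = _ := h4
  rw [e]
  simp

/-- the gradient of the local potential -/
theorem Plo_grad (h : LocalEuler T0 T x0 r ρ p u) (hs : SelfSimilar T0 T x0 r ρ u β R U)
    (hU : ContDiff ℝ 2 U) {τ : ℝ} (h1 : 0 < τ) (h2 : τ < T - T0) {y : ℂ}
    (hy : ‖Lam β τ‖ * ‖y‖ < r) :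
    fderiv ℝ (Plo T x0 p β τ) y 1 = -(G β R U y).re ∧
      fderiv ℝ (Plo T x0 p β τ) y I = -(G β R U y).im := by
  have hL : Lam β τ ≠ 0 := Lam_ne h1
  have hτ : (τ : ℂ) ≠ 0 := by exact_mod_cast h1.ne'
  have hm := h.momentum (T - τ) (mem_of h1 h2) (x0 + Lam β τ * y) (mem_ball_of hy)
  obtain ⟨pR, pU⟩ := hs.pull h1 h2 hy
  have uU : u (T - τ) (x0 + Lam β τ * y) = (Lam β τ / τ) * U y := by
    rw [pU]
    field_simp
  rw [deriv_u hU hs h1 h2 hy, fderiv_u hU hs h1 h2 hy, uU, ← pR] at hm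
  have e1 : (Lam β τ)⁻¹ * (Lam β τ / τ * U y) = (1 / τ : ℝ) • U y := by
    rw [real_smul]
    push_cast
    field_simp
  rw [e1, map_smul, real_smul] at hm
  -- the momentum equation
  have hG : (Lam β τ / τ ^ 2) * G β R U y =
      -((fderiv ℝ (p (T - τ)) (x0 + Lam β τ * y) 1 : ℂ) +
        (fderiv ℝ (p (T - τ)) (x0 + Lam β τ * y) I : ℂ) * I) := by
    rw [← hm]
    unfold G
    rw [map_add]
    push_cast
    field_simp
    ring
  set A := fderiv ℝ (p (T - τ)) (x0 + Lam β τ * y) with hA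
  -- the gradient of the potential
  have g1 := Plo_fderiv (β := β) h h1 h2 hy 1
  have g2 := Plo_fderiv (β := β) h h1 h2 hy I
  rw [← hA, clm_eq A] at g1 g2
  simp only [smul_eq_mul] at g1 g2
  have hn : ‖Lam β τ‖ ^ 2 = (Lam β τ).re ^ 2 + (Lam β τ).im ^ 2 := by
    rw [Complex.sq_norm, Complex.normSq_apply]; ring
  have hn0 : ‖Lam β τ‖ ^ 2 ≠ 0 := by
    have := norm_Lam_pos (β := β) h1
    positivity
  have r1 := congrArg Complex.re hG
  have r2 := congrArg Complex.im hG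
  have e2 : Lam β τ / (τ : ℂ) ^ 2 = ((1 / τ ^ 2 : ℝ) : ℂ) * Lam β τ := by
    push_cast
    field_simp
  rw [e2] at r1 r2
  simp only [mul_re, mul_im, ofReal_re, ofReal_im, zero_mul, sub_zero, add_zero, neg_re, neg_im,
    add_re, add_im, I_re, I_im, mul_zero, mul_one, zero_add] at r1 r2
  have ht : τ ^ 2 ≠ 0 := by positivity
  rw [g1, g2]
  simp only [mul_re, mul_im, I_re, I_im, mul_zero, mul_one, add_zero, zero_sub]
  have s1 : (Lam β τ).re * (G β R U y).re - (Lam β τ).im * (G β R U y).im = -(τ ^ 2 * A 1) := by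
    have := congrArg (fun z => τ ^ 2 * z) r1
    field_simp at this
    linarith
  have s2 : (Lam β τ).re * (G β R U y).im + (Lam β τ).im * (G β R U y).re = -(τ ^ 2 * A I) := by
    have := congrArg (fun z => τ ^ 2 * z) r2
    field_simp at this
    linarith
  constructor
  · rw [div_mul_eq_mul_div, div_eq_iff hn0, hn]
    linear_combination (Lam β τ).re * s1 + (Lam β τ).im * s2
  · rw [div_mul_eq_mul_div, div_eq_iff hn0, hn]
    linear_combination (-(Lam β τ).im) * s1 + (Lam β τ).re * s2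

/-- two local potentials agree -/
theorem Plo_unique (h : LocalEuler T0 T x0 r ρ p u) (hs : SelfSimilar T0 T x0 r ρ u β R U)
    (hU : ContDiff ℝ 2 U) {τ τ' : ℝ} (h1 : 0 < τ) (h2 : τ < T - T0) (h1' : 0 < τ')
    (h2' : τ' < T - T0) {y : ℂ} (hy : ‖Lam β τ‖ * ‖y‖ < r) (hy' : ‖Lam β τ'‖ * ‖y‖ < r) :
    Plo T x0 p β τ y = Plo T x0 p β τ' y := by
  set S : Set ℂ := {z | ‖Lam β τ‖ * ‖z‖ < r ∧ ‖Lam β τ'‖ * ‖z‖ < r} with hS
  have hSb : S = ball 0 (min (r / ‖Lam β τ‖) (r / ‖Lam β τ'‖)) := by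
    have a1 := norm_Lam_pos (β := β) h1
    have a2 := norm_Lam_pos (β := β) h1'
    ext z
    rw [mem_ball_zero_iff, lt_min_iff, lt_div_iff₀ a1, lt_div_iff₀ a2, mul_comm ‖z‖,
      mul_comm ‖z‖]
    rfl
  have hSo : IsOpen S := by rw [hSb]; exact isOpen_ball
  have hSp : IsPreconnected S := by rw [hSb]; exact (convex_ball _ _).isPreconnected
  have hd : ∀ z ∈ S, DifferentiableAt ℝ (Plo T x0 p β τ) z := fun z hz =>
    (Plo_contDiffAt h h1 h2 hz.1).differentiableAt two_ne_zero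
  have hd' : ∀ z ∈ S, DifferentiableAt ℝ (Plo T x0 p β τ') z := fun z hz =>
    (Plo_contDiffAt h h1' h2' hz.2).differentiableAt two_ne_zero
  have hr : 0 < r := lt_of_le_of_lt (by positivity) hy
  have h0 : (0 : ℂ) ∈ S := by
    constructor <;> simpa using hr
  have key := hSo.is_const_of_fderiv_eq_zero (𝕜 := ℝ) hSp
    (f := fun z => Plo T x0 p β τ z - Plo T x0 p β τ' z)
    (fun z hz => ((hd z hz).sub (hd' z hz)).differentiableWithinAt) (fun z hz => by
      have e : fderiv ℝ (fun z => Plo T x0 p β τ z - Plo T x0 p β τ' z) z =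
          fderiv ℝ (Plo T x0 p β τ) z - fderiv ℝ (Plo T x0 p β τ') z :=
        ((hd z hz).hasFDerivAt.sub (hd' z hz).hasFDerivAt).fderiv
      have g := Plo_grad h hs hU h1 h2 hz.1
      have g' := Plo_grad h hs hU h1' h2' hz.2
      rw [e, Pi.zero_apply]
      ext v
      rw [sub_apply, clm_eq, clm_eq (fderiv ℝ (Plo T x0 p β τ') z), g.1, g.2,
        g'.1, g'.2]
      simp) (x := y) (y := 0) ⟨hy, hy'⟩ h0
  simp only [Plo_zero, sub_self] at key
  linarith

/-- the global potential and the profile equations -/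
theorem exists_profile (h : LocalEuler T0 T x0 r ρ p u) (hs : SelfSimilar T0 T x0 r ρ u β R U)
    (hT : T0 < T) (hr : 0 < r) (hβ : 0 < β.re)
    (hpos : ∀ t ∈ Set.Ioo T0 T, ∀ x ∈ ball x0 r, 0 < ρ t x) :
    ∃ P : ℂ → ℝ, Profile β.re β.im R (fun z => (U z).re) (fun z => (U z).im) P ∧
      ∀ τ : ℝ, 0 < τ → τ < T - T0 → ∀ y : ℂ, ‖Lam β τ‖ * ‖y‖ < r →
        P =ᶠ[𝓝 y] Plo T x0 p β τ := by
  have hR := contDiff_R h hs hT hr hβ
  have hU := contDiff_U h hs hT hr hβ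
  choose tt ht0 ht1 ht2 using fun s : ℝ => exists_small (β := β) hT hr hβ s
  set P : ℂ → ℝ := fun y => Plo T x0 p β (tt ‖y‖) y with hP
  have hev : ∀ τ : ℝ, 0 < τ → τ < T - T0 → ∀ y : ℂ, ‖Lam β τ‖ * ‖y‖ < r →
        P =ᶠ[𝓝 y] Plo T x0 p β τ := by
    intro τ h1 h2 y hy
    filter_upwards [pull_eventually hy] with z hz
    exact Plo_unique h hs hU (ht0 _) (ht1 _) h1 h2 (ht2 _) hz
  have hPc : ∀ y, ContDiffAt ℝ 2 P y := fun y =>
    ContDiffAt.congr_of_eventuallyEq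
      (Plo_contDiffAt (β := β) (x0 := x0) h (ht0 ‖y‖) (ht1 ‖y‖) (ht2 ‖y‖))
      (hev _ (ht0 ‖y‖) (ht1 ‖y‖) y (ht2 ‖y‖))
  have hg : ∀ y, d1 P y = -(G β R U y).re ∧ d2 P y = -(G β R U y).im := by
    intro y
    have e : fderiv ℝ P y = fderiv ℝ (Plo T x0 p β (tt ‖y‖)) y :=
      (hev _ (ht0 ‖y‖) (ht1 ‖y‖) y (ht2 ‖y‖)).fderiv_eq
    unfold d1 d2
    rw [e]
    exact Plo_grad h hs hU (ht0 _) (ht1 _) (ht2 ‖y‖)
  have hU1 : ContDiff ℝ 2 fun z => (U z).re := reCLM.contDiff.comp hU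
  have hU2 : ContDiff ℝ 2 fun z => (U z).im := imCLM.contDiff.comp hU
  -- the first order derivatives of the components
  have hd : ∀ z, HasFDerivAt U (fderiv ℝ U z) z := fun z =>
    (hU.differentiable two_ne_zero z).hasFDerivAt
  have re_d : ∀ z v, fderiv ℝ (fun z => (U z).re) z v = (fderiv ℝ U z v).re := by
    intro z v
    have := (reCLM.hasFDerivAt.comp z (hd z)).fderiv
    simp only [Function.comp_def, reCLM_apply] at this
    rw [this]
    rfl
  have im_d : ∀ z v, fderiv ℝ (fun z => (U z).im) z v = (fderiv ℝ U z v).im := by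
    intro z v
    have := (imCLM.hasFDerivAt.comp z (hd z)).fderiv
    simp only [Function.comp_def, imCLM_apply] at this
    rw [this]
    rfl
  have hDV : ∀ z, fderiv ℝ U z (β * z + U z) =
      V1 β.re β.im (fun z => (U z).re) z • fderiv ℝ U z 1 +
      V2 β.re β.im (fun z => (U z).im) z • fderiv ℝ U z I := by
    intro z
    rw [clm_eq]
    congr 2
  refine ⟨P, ⟨hR, hU1, hU2, contDiff_iff_contDiffAt.mpr hPc, ?_, ?_, ?_, ?_, ?_⟩, hev⟩
  · intro y
    rw [(hs.pull (ht0 _) (ht1 _) (ht2 ‖y‖)).1]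
    exact hpos _ (mem_of (ht0 _) (ht1 _)) _ (mem_ball_of (ht2 ‖y‖))
  · intro y
    unfold d1 d2
    rw [re_d, im_d]
    have h1 := ht0 ‖y‖
    have h2 := ht1 ‖y‖
    have hy := ht2 ‖y‖
    set τ := tt ‖y‖ with hτdef
    have hL : Lam β τ ≠ 0 := Lam_ne h1
    have hτ : (τ : ℂ) ≠ 0 := by exact_mod_cast h1.ne'
    have hdv := h.div (T - τ) (mem_of h1 h2) (x0 + Lam β τ * y) (mem_ball_of hy)
    rw [fderiv_u hU hs h1 h2 hy, fderiv_u hU hs h1 h2 hy, clm_eq _ ((Lam β τ)⁻¹ * 1),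
      clm_eq _ ((Lam β τ)⁻¹ * I)] at hdv
    set X := fderiv ℝ U y 1 with hX
    set Y := fderiv ℝ U y I with hY
    have e2 : Lam β τ / (τ : ℂ) = ((1 / τ : ℝ) : ℂ) * Lam β τ := by
      push_cast
      field_simp
    rw [e2] at hdv
    have hn : normSq (Lam β τ) ≠ 0 := by
      rw [Ne, Complex.normSq_eq_zero]
      exact hL
    simp only [mul_re, mul_im, ofReal_re, ofReal_im, zero_mul, sub_zero, add_zero, mul_one, mul_zero,
      I_re, I_im, zero_sub, add_re, add_im, real_smul, inv_re, inv_im] at hdv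
    have hn2 : normSq (Lam β τ) = (Lam β τ).re * (Lam β τ).re + (Lam β τ).im * (Lam β τ).im :=
      Complex.normSq_apply _
    field_simp at hdv
    have key : normSq (Lam β τ) * (X.re + Y.im) = 0 := by
      rw [hn2]
      linarith
    rcases mul_eq_zero.mp key with hk | hk
    · exact absurd hk hn
    · exact hk
  · intro y
    have h1 := ht0 ‖y‖
    have h2 := ht1 ‖y‖
    have hy := ht2 ‖y‖
    set τ := tt ‖y‖ with hτdef
    have hL : Lam β τ ≠ 0 := Lam_ne h1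
    have hτ : (τ : ℂ) ≠ 0 := by exact_mod_cast h1.ne'
    have hm := h.mass (T - τ) (mem_of h1 h2) (x0 + Lam β τ * y) (mem_ball_of hy)
    have uU : u (T - τ) (x0 + Lam β τ * y) = (Lam β τ / τ) * U y := by
      rw [(hs.pull h1 h2 hy).2]
      field_simp
    rw [deriv_rho hR hs h1 h2 hy, fderiv_rho hR hs h1 h2 hy, uU, ← map_add] at hm
    have e : β * y / τ + (Lam β τ)⁻¹ * (Lam β τ / τ * U y) = (1 / τ : ℝ) • (β * y + U y) := by
      rw [real_smul]
      push_cast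
      field_simp
    rw [e, map_smul, smul_eq_mul] at hm
    have hm' : fderiv ℝ R y (β * y + U y) = 0 := by
      rcases mul_eq_zero.mp hm with h' | h'
      · exact absurd h' (by positivity)
      · exact h'
    rw [clm_eq] at hm'
    simp only [smul_eq_mul] at hm'
    unfold d1 d2 V1 V2
    rw [← hm']
    simp
  · intro y
    rw [(hg y).1, neg_neg]
    unfold G d1 d2
    rw [re_d, re_d, hDV]
    simp only [mul_im, mul_re, ofReal_re, ofReal_im, add_im, add_re, sub_re, sub_im, one_re, one_im,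
      real_smul, V1, V2]
    ring
  · intro y
    rw [(hg y).2, neg_neg]
    unfold G d1 d2
    rw [im_d, im_d, hDV]
    simp only [mul_im, mul_re, ofReal_re, ofReal_im, add_im, add_re, sub_re, sub_im, one_re, one_im,
      real_smul, V1, V2]
    ring

end main

end Pool.Agent.Lib.MP_6c0de8_an
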