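import Pool.Agent.Lib.MP_6c0de8_an.Calc

/-! The profile equations of a self-similar solution and the energy-critical exponent. -/

set_option autoImplicit false

namespace Pool.Agent.Lib.MP_6c0de8_an

open MeasureTheory Filter Topology Complex

/-- first component of `V = β z + U`, `β = b + i c` -/
def V1 (b c : ℝ) (U1 : ℂ → ℝ) (z : ℂ) : ℝ := b * z.re - c * z.im + U1 z

/-- second component of `V = β z + U`, `β = b + i c` -/
def V2 (b c : ℝ) (U2 : ℂ → ℝ) (z : ℂ) : ℝ := b * z.im + c * z.re + U2 z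

/-- the equations of the profiles -/
structure Profile (b c : ℝ) (R U1 U2 P : ℂ → ℝ) : Prop where
  hR : ContDiff ℝ 2 R
  hU1 : ContDiff ℝ 2 U1
  hU2 : ContDiff ℝ 2 U2
  hP : ContDiff ℝ 2 P
  pos : ∀ z, 0 < R z
  div : ∀ z, d1 U1 z + d2 U2 z = 0
  tr : ∀ z, V1 b c U1 z * d1 R z + V2 b c U2 z * d2 R z = 0
  m1 : ∀ z, R z * ((1 - b) * U1 z + c * U2 z + (V1 b c U1 z * d1 U1 z + V2 b c U2 z * d2 U1 z)) =
    - d1 P z
  m2 : ∀ z, R z * ((1 - b) * U2 z - c * U1 z + (V1 b c U1 z * d1 U2 z + V2 b c U2 z * d2 U2 z)) =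
    - d2 P z

section basic

variable {b c : ℝ} {R U1 U2 P : ℂ → ℝ}

theorem contDiff_V1 {n : WithTop ℕ∞} (h : ContDiff ℝ n U1) : ContDiff ℝ n (V1 b c U1) := by
  unfold V1
  exact ((contDiff_const.mul reCLM.contDiff).sub (contDiff_const.mul imCLM.contDiff)).add h

theorem contDiff_V2 {n : WithTop ℕ∞} (h : ContDiff ℝ n U2) : ContDiff ℝ n (V2 b c U2) := by
  unfold V2
  exact ((contDiff_const.mul imCLM.contDiff).add (contDiff_const.mul reCLM.contDiff)).add h

theorem hasD_V1 (h : ContDiff ℝ 2 U1) (z : ℂ) :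
    HasD (V1 b c U1) (b + d1 U1 z) (-c + d2 U1 z) z := by
  have e := (((hasD_const b z).mul (hasD_re z)).sub ((hasD_const c z).mul (hasD_im z))).add
    (hasD_of_diff (h.differentiable two_ne_zero z))
  exact e.cast (by ring) (by ring)

theorem hasD_V2 (h : ContDiff ℝ 2 U2) (z : ℂ) :
    HasD (V2 b c U2) (c + d1 U2 z) (b + d2 U2 z) z := by
  have e := (((hasD_const b z).mul (hasD_im z)).add ((hasD_const c z).mul (hasD_re z))).add
    (hasD_of_diff (h.differentiable two_ne_zero z))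
  exact e.cast (by ring) (by ring)

theorem Profile.divV (h : Profile b c R U1 U2 P) (z : ℂ) :
    d1 (V1 b c U1) z + d2 (V2 b c U2) z = 2 * b := by
  rw [(hasD_V1 h.hU1 z).d1, (hasD_V2 h.hU2 z).d2]
  linear_combination h.div z

theorem one_le_two' : (1 : WithTop ℕ∞) ≤ 2 := by norm_num

theorem contDiff_d1 {f : ℂ → ℝ} (hf : ContDiff ℝ 2 f) : ContDiff ℝ 1 (d1 f) :=
  (hf.fderiv_right (m := 1) (by norm_num)).clm_apply contDiff_const

theorem contDiff_d2 {f : ℂ → ℝ} (hf : ContDiff ℝ 2 f) : ContDiff ℝ 1 (d2 f) :=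
  (hf.fderiv_right (m := 1) (by norm_num)).clm_apply contDiff_const

/-- the second derivatives are symmetric -/
theorem d1_d2 {f : ℂ → ℝ} (hf : ContDiff ℝ 2 f) (z : ℂ) : d1 (d2 f) z = d2 (d1 f) z := by
  have h1 : IsSymmSndFDerivAt ℝ f z :=
    ContDiffAt.isSymmSndFDerivAt hf.contDiffAt (by simp)
  have hd : DifferentiableAt ℝ (fderiv ℝ f) z :=
    (hf.fderiv_right (m := 1) (by norm_num)).differentiable one_ne_zero z
  have e1 : d1 (d2 f) z = fderiv ℝ (fderiv ℝ f) z 1 I := by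
    unfold d1 d2
    rw [fderiv_clm_apply hd (differentiableAt_const _)]
    simp
  have e2 : d2 (d1 f) z = fderiv ℝ (fderiv ℝ f) z I 1 := by
    unfold d1 d2
    rw [fderiv_clm_apply hd (differentiableAt_const _)]
    simp
  rw [e1, e2]
  exact h1.eq 1 I

end basic

/-! ### the energy-critical exponent -/

section half

variable {c : ℝ} {R U1 U2 P : ℂ → ℝ}

/-- minus the part of the Bernoulli function which does not contain the pressure -/
noncomputable def Q (c : ℝ) (U1 U2 : ℂ → ℝ) (z : ℂ) : ℝ :=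
  - ((1 / 2 * z.re - c * z.im) * U1 z + (1 / 2 * z.im + c * z.re) * U2 z +
    1 / 2 * (U1 z * U1 z + U2 z * U2 z))

theorem Q_eq (z : ℂ) : Q c U1 U2 z = ((1 / 4 + c ^ 2) * (z.re ^ 2 + z.im ^ 2) -
    (V1 (1 / 2) c U1 z ^ 2 + V2 (1 / 2) c U2 z ^ 2)) / 2 := by
  unfold Q V1 V2
  ring

theorem contDiff_Q (h1 : ContDiff ℝ 2 U1) (h2 : ContDiff ℝ 2 U2) : ContDiff ℝ 2 (Q c U1 U2) := by
  unfold Q
  have e1 : ContDiff ℝ 2 fun z : ℂ => z.re := reCLM.contDiff
  have e2 : ContDiff ℝ 2 fun z : ℂ => z.im := imCLM.contDiff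
  fun_prop

theorem hasD_Q (h1 : ContDiff ℝ 2 U1) (h2 : ContDiff ℝ 2 U2) (z : ℂ) :
    HasD (Q c U1 U2)
      (- (V1 (1 / 2) c U1 z * d1 U1 z + V2 (1 / 2) c U2 z * d1 U2 z + 1 / 2 * U1 z + c * U2 z))
      (- (V1 (1 / 2) c U1 z * d2 U1 z + V2 (1 / 2) c U2 z * d2 U2 z + 1 / 2 * U2 z - c * U1 z)) z := by
  have e1 := hasD_of_diff (h1.differentiable two_ne_zero z)
  have e2 := hasD_of_diff (h2.differentiable two_ne_zero z)
  have ew1 := ((hasD_const (1 / 2) z).mul (hasD_re z)).sub ((hasD_const c z).mul (hasD_im z))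
  have ew2 := ((hasD_const (1 / 2) z).mul (hasD_im z)).add ((hasD_const c z).mul (hasD_re z))
  have e := (((ew1.mul e1).add (ew2.mul e2)).add
    ((hasD_const (1 / 2) z).mul ((e1.mul e1).add (e2.mul e2)))).neg
  refine e.cast ?_ ?_ <;> (unfold V1 V2; ring)

/-- the Bernoulli function is transported -/
theorem bernoulli (h : Profile (1 / 2) c R U1 U2 P) (z : ℂ) :
    V1 (1 / 2) c U1 z * d1 (fun z => P z * (R z)⁻¹ - Q c U1 U2 z) z +
      V2 (1 / 2) c U2 z * d2 (fun z => P z * (R z)⁻¹ - Q c U1 U2 z) z = 0 := by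
  have hr := (h.pos z).ne'
  have e := ((hasD_of_diff (h.hP.differentiable two_ne_zero z)).mul
    ((hasD_of_diff (h.hR.differentiable two_ne_zero z)).inv hr)).sub (hasD_Q (c := c) h.hU1 h.hU2 z)
  rw [e.d1, e.d2]
  have m1 := h.m1 z
  have m2 := h.m2 z
  have tr := h.tr z
  have p1 : d1 P z = - (R z * ((1 - 1 / 2) * U1 z + c * U2 z +
    (V1 (1 / 2) c U1 z * d1 U1 z + V2 (1 / 2) c U2 z * d2 U1 z))) := by linarith
  have p2 : d2 P z = - (R z * ((1 - 1 / 2) * U2 z - c * U1 z +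
    (V1 (1 / 2) c U1 z * d1 U2 z + V2 (1 / 2) c U2 z * d2 U2 z))) := by linarith
  rw [p1, p2]
  field_simp
  linear_combination (-2 * P z) * tr

/-- the pressure is `R Q` -/
theorem pressure_eq (h : Profile (1 / 2) c R U1 U2 P)
    (hQ : Tendsto (Q c U1 U2) (cocompact ℂ) (𝓝 0))
    (hPR : Tendsto (fun z => P z * (R z)⁻¹) (cocompact ℂ) (𝓝 0)) (z : ℂ) :
    P z = R z * Q c U1 U2 z := by
  have hr := (h.pos z).ne'
  have hg : ContDiff ℝ 1 fun z => P z * (R z)⁻¹ - Q c U1 U2 z :=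
    ((h.hP.of_le one_le_two').mul
      ((h.hR.of_le one_le_two').inv fun z => (h.pos z).ne')).sub
      ((contDiff_Q h.hU1 h.hU2).of_le one_le_two')
  have h1 := transport_zero (k := 2 * (1 / 2)) (l := 0) (contDiff_V1 (h.hU1.of_le one_le_two'))
    (contDiff_V2 (h.hU2.of_le one_le_two')) hg (by norm_num) le_rfl h.divV
    (fun z => by rw [bernoulli h z]; ring) (by simpa using hPR.sub hQ) z
  have h2 : P z * (R z)⁻¹ = Q c U1 U2 z := by linarith
  rw [← h2]
  field_simp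

/-- the vorticity -/
noncomputable def Om (U1 U2 : ℂ → ℝ) (z : ℂ) : ℝ := d1 U2 z - d2 U1 z

/-- the key identities -/
theorem key (h : Profile (1 / 2) c R U1 U2 P) (hP : ∀ z, P z = R z * Q c U1 U2 z) (z : ℂ) :
    Q c U1 U2 z * d1 R z = R z * Om U1 U2 z * V2 (1 / 2) c U2 z ∧
      Q c U1 U2 z * d2 R z = - (R z * Om U1 U2 z * V1 (1 / 2) c U1 z) := by
  have e := ((hasD_of_diff (h.hR.differentiable two_ne_zero z)).mul (hasD_Q (c := c) h.hU1 h.hU2 z))
  have e' : P = fun z => R z * Q c U1 U2 z := funext hP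
  have m1 := h.m1 z
  have m2 := h.m2 z
  rw [e', e.d1] at m1
  rw [e', e.d2] at m2
  unfold Om
  constructor
  · linear_combination m1
  · linear_combination m2

end half

end Pool.Agent.Lib.MP_6c0de8_an
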