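import Pool.Agent.Lib.MP_6c0de8_an.Profile

/-! From a locally self-similar solution to the equations of the profiles. -/

set_option autoImplicit false

namespace Pool.Agent.Lib.MP_6c0de8_an

open MeasureTheory Filter Topology Complex Metric

/-- A classical solution of the inhomogeneous incompressible Euler system on the cylinder
`(T0, T) × B(x0, r)` of the plane `ℂ = ℝ²`: density `ρ`, velocity `u = u₁ + i u₂`, pressure `p`. -/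
structure LocalEuler (T0 T : ℝ) (x0 : ℂ) (r : ℝ) (ρ p : ℝ → ℂ → ℝ) (u : ℝ → ℂ → ℂ) : Prop where
  smooth_ρ : ∀ t ∈ Set.Ioo T0 T, ContDiffOn ℝ 2 (ρ t) (ball x0 r)
  smooth_u : ∀ t ∈ Set.Ioo T0 T, ContDiffOn ℝ 2 (u t) (ball x0 r)
  smooth_p : ∀ t ∈ Set.Ioo T0 T, ContDiffOn ℝ 2 (p t) (ball x0 r)
  diff_ρ : ∀ t ∈ Set.Ioo T0 T, ∀ x ∈ ball x0 r, DifferentiableAt ℝ (fun s => ρ s x) t
  diff_u : ∀ t ∈ Set.Ioo T0 T, ∀ x ∈ ball x0 r, DifferentiableAt ℝ (fun s => u s x) t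
  /-- `∇ · u = 0` -/
  div : ∀ t ∈ Set.Ioo T0 T, ∀ x ∈ ball x0 r,
    (fderiv ℝ (u t) x 1).re + (fderiv ℝ (u t) x I).im = 0
  /-- `∂ₜ ρ + u · ∇ ρ = 0` -/
  mass : ∀ t ∈ Set.Ioo T0 T, ∀ x ∈ ball x0 r,
    deriv (fun s => ρ s x) t + fderiv ℝ (ρ t) x (u t x) = 0
  /-- `ρ (∂ₜ u + u · ∇ u) = - ∇ p`, where `∇ p = ∂₁ p + i ∂₂ p` -/
  momentum : ∀ t ∈ Set.Ioo T0 T, ∀ x ∈ ball x0 r,
    (ρ t x : ℂ) * (deriv (fun s => u s x) t + fderiv ℝ (u t) x (u t x)) =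
      -((fderiv ℝ (p t) x 1 : ℂ) + (fderiv ℝ (p t) x I : ℂ) * I)

/-- local (spiral) self-similarity on the cylinder `(T0, T) × B(x0, r)` with exponent `β` and profiles
`R`, `U`: `ρ = R(y)`, `u = (T - t)^(β - 1) U(y)` with `y = (x - x0) (T - t)^(-β)` -/
def SelfSimilar (T0 T : ℝ) (x0 : ℂ) (r : ℝ) (ρ : ℝ → ℂ → ℝ) (u : ℝ → ℂ → ℂ) (β : ℂ) (R : ℂ → ℝ)
    (U : ℂ → ℂ) : Prop :=
  ∀ t ∈ Set.Ioo T0 T, ∀ x ∈ ball x0 r,
    ρ t x = R ((x - x0) * ((T - t : ℝ) : ℂ) ^ (-β)) ∧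
    u t x = ((T - t : ℝ) : ℂ) ^ (β - 1) * U ((x - x0) * ((T - t : ℝ) : ℂ) ^ (-β))

/-- the scaling factor `τ^β` -/
noncomputable def Lam (β : ℂ) (τ : ℝ) : ℂ := ((τ : ℝ) : ℂ) ^ β

/-- multiplication by `a` -/
noncomputable def mulL (a : ℂ) : ℂ →L[ℝ] ℂ := ContinuousLinearMap.mul ℝ ℂ a

@[simp] theorem mulL_apply (a h : ℂ) : mulL a h = a * h := rfl

section scaling

variable {β : ℂ} {τ : ℝ}

theorem norm_Lam (hτ : 0 < τ) : ‖Lam β τ‖ = τ ^ β.re := norm_cpow_eq_rpow_re_of_pos hτ β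

theorem norm_Lam_pos (hτ : 0 < τ) : 0 < ‖Lam β τ‖ := by
  rw [norm_Lam hτ]; exact Real.rpow_pos_of_pos hτ _

theorem Lam_ne (hτ : 0 < τ) : Lam β τ ≠ 0 := norm_pos_iff.mp (norm_Lam_pos hτ)

theorem cpow_neg' : ((τ : ℝ) : ℂ) ^ (-β) = (Lam β τ)⁻¹ := cpow_neg _ _

theorem cpow_sub' (hτ : 0 < τ) : ((τ : ℝ) : ℂ) ^ (β - 1) = Lam β τ / τ := by
  rw [cpow_sub _ _ (by exact_mod_cast hτ.ne'), cpow_one]
  rfl

/-- the affine change of variables -/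
theorem hasFDerivAt_aff (a x0 x : ℂ) : HasFDerivAt (𝕜 := ℝ) (fun x => (x - x0) * a) (mulL a) x := by
  have h := ((hasFDerivAt_id (𝕜 := ℝ) x).sub_const x0).mul_const' a
  refine h.congr_fderiv ?_
  ext h
  simp

theorem hasFDerivAt_aff' (a x0 y : ℂ) : HasFDerivAt (𝕜 := ℝ) (fun y => x0 + a * y) (mulL a) y := by
  have h := ((hasFDerivAt_id (𝕜 := ℝ) y).const_mul a).const_add x0
  refine h.congr_fderiv ?_
  ext h
  simp

theorem contDiff_aff' (a x0 : ℂ) : ContDiff ℝ 2 (fun y : ℂ => x0 + a * y) := by fun_prop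

end scaling

section main

variable {T0 T r : ℝ} {x0 : ℂ} {ρ p : ℝ → ℂ → ℝ} {u : ℝ → ℂ → ℂ} {β : ℂ} {R : ℂ → ℝ} {U : ℂ → ℂ}

theorem mem_of {τ : ℝ} (h1 : 0 < τ) (h2 : τ < T - T0) : T - τ ∈ Set.Ioo T0 T :=
  ⟨by linarith, by linarith⟩

theorem mem_ball_of {a y : ℂ} (h : ‖a‖ * ‖y‖ < r) : x0 + a * y ∈ ball x0 r := by
  rw [mem_ball, dist_eq_norm, add_sub_cancel_left, norm_mul]
  exact h

/-- the profiles from the solution -/
theorem SelfSimilar.pull (hs : SelfSimilar T0 T x0 r ρ u β R U) {τ : ℝ} (h1 : 0 < τ)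
    (h2 : τ < T - T0) {y : ℂ} (hy : ‖Lam β τ‖ * ‖y‖ < r) :
    R y = ρ (T - τ) (x0 + Lam β τ * y) ∧
      U y = ((τ : ℂ) / Lam β τ) * u (T - τ) (x0 + Lam β τ * y) := by
  have h := hs (T - τ) (mem_of h1 h2) (x0 + Lam β τ * y) (mem_ball_of hy)
  have hL : Lam β τ ≠ 0 := Lam_ne h1
  have hτ : (τ : ℂ) ≠ 0 := by exact_mod_cast h1.ne'
  have e1 : T - (T - τ) = τ := by ring
  have e2 : (x0 + Lam β τ * y - x0) * (Lam β τ)⁻¹ = y := by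
    field_simp
    ring
  rw [e1, cpow_neg', cpow_sub' h1, e2] at h
  refine ⟨h.1.symm, ?_⟩
  rw [h.2]
  field_simp

/-- small times exist -/
theorem eventually_small (hT : T0 < T) (hr : 0 < r) (hβ : 0 < β.re) (s : ℝ) :
    ∀ᶠ τ : ℝ in 𝓝[>] 0, 0 < τ ∧ τ < T - T0 ∧ ‖Lam β τ‖ * s < r := by
  have h1 : ∀ᶠ τ : ℝ in 𝓝[>] 0, 0 < τ := eventually_mem_nhdsWithin
  have h2 : ∀ᶠ τ : ℝ in 𝓝[>] 0, τ < T - T0 :=
    nhdsWithin_le_nhds (Iio_mem_nhds (by linarith))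
  have h3 : Tendsto (fun τ : ℝ => τ ^ β.re * s) (𝓝[>] 0) (𝓝 0) := by
    have hc : ContinuousAt (fun τ : ℝ => τ ^ β.re * s) 0 :=
      (Real.continuousAt_rpow_const 0 β.re (Or.inr hβ.le)).mul_const s
    have := hc.tendsto.mono_left (nhdsWithin_le_nhds (s := Set.Ioi 0))
    simpa [Real.zero_rpow hβ.ne'] using this
  filter_upwards [h1, h2, h3.eventually (gt_mem_nhds hr)] with τ a1 a2 a3
  refine ⟨a1, a2, ?_⟩
  rw [norm_Lam a1]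
  exact a3

theorem exists_small (hT : T0 < T) (hr : 0 < r) (hβ : 0 < β.re) (s : ℝ) :
    ∃ τ : ℝ, 0 < τ ∧ τ < T - T0 ∧ ‖Lam β τ‖ * s < r :=
  (eventually_small hT hr hβ s).exists

theorem pull_eventually {τ : ℝ} {y : ℂ} (hy : ‖Lam β τ‖ * ‖y‖ < r) :
    ∀ᶠ z in 𝓝 y, ‖Lam β τ‖ * ‖z‖ < r := by
  have hc : ContinuousAt (fun z : ℂ => ‖Lam β τ‖ * ‖z‖) y := by fun_prop
  exact hc.eventually_lt_const hy

theorem contDiff_R (h : LocalEuler T0 T x0 r ρ p u) (hs : SelfSimilar T0 T x0 r ρ u β R U)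
    (hT : T0 < T) (hr : 0 < r) (hβ : 0 < β.re) : ContDiff ℝ 2 R := by
  rw [contDiff_iff_contDiffAt]
  intro y
  obtain ⟨τ, h1, h2, h3⟩ := exists_small (β := β) hT hr hβ ‖y‖
  have e : R =ᶠ[𝓝 y] fun z => ρ (T - τ) (x0 + Lam β τ * z) :=
    (pull_eventually h3).mono fun z hz => (hs.pull h1 h2 hz).1
  refine ContDiffAt.congr_of_eventuallyEq ?_ e
  have hc : ContDiffAt ℝ 2 (ρ (T - τ)) (x0 + Lam β τ * y) :=
    (h.smooth_ρ _ (mem_of h1 h2)).contDiffAt (isOpen_ball.mem_nhds (mem_ball_of h3))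
  exact hc.comp y (contDiff_aff' _ _).contDiffAt

theorem contDiff_U (h : LocalEuler T0 T x0 r ρ p u) (hs : SelfSimilar T0 T x0 r ρ u β R U)
    (hT : T0 < T) (hr : 0 < r) (hβ : 0 < β.re) : ContDiff ℝ 2 U := by
  rw [contDiff_iff_contDiffAt]
  intro y
  obtain ⟨τ, h1, h2, h3⟩ := exists_small (β := β) hT hr hβ ‖y‖
  have e : U =ᶠ[𝓝 y] fun z => ((τ : ℂ) / Lam β τ) * u (T - τ) (x0 + Lam β τ * z) :=
    (pull_eventually h3).mono fun z hz => (hs.pull h1 h2 hz).2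
  refine ContDiffAt.congr_of_eventuallyEq ?_ e
  have hc : ContDiffAt ℝ 2 (u (T - τ)) (x0 + Lam β τ * y) :=
    (h.smooth_u _ (mem_of h1 h2)).contDiffAt (isOpen_ball.mem_nhds (mem_ball_of h3))
  exact contDiffAt_const.mul (hc.comp y (contDiff_aff' _ _).contDiffAt)

/-- the space derivatives -/
theorem fderiv_rho (hR : ContDiff ℝ 2 R) (hs : SelfSimilar T0 T x0 r ρ u β R U) {τ : ℝ} (h1 : 0 < τ)
    (h2 : τ < T - T0) {y : ℂ} (hy : ‖Lam β τ‖ * ‖y‖ < r) (v : ℂ) :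
    fderiv ℝ (ρ (T - τ)) (x0 + Lam β τ * y) v = fderiv ℝ R y ((Lam β τ)⁻¹ * v) := by
  have hL : Lam β τ ≠ 0 := Lam_ne h1
  have e : ρ (T - τ) =ᶠ[𝓝 (x0 + Lam β τ * y)] fun x => R ((x - x0) * (Lam β τ)⁻¹) := by
    filter_upwards [isOpen_ball.mem_nhds (mem_ball_of (x0 := x0) hy)] with x hx
    have h := (hs (T - τ) (mem_of h1 h2) x hx).1
    rwa [show T - (T - τ) = τ by ring, cpow_neg'] at h
  have e2 : (x0 + Lam β τ * y - x0) * (Lam β τ)⁻¹ = y := by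
    field_simp
    ring
  have hd := (hR.differentiable two_ne_zero y).hasFDerivAt
  rw [← e2] at hd
  have hc := hd.comp (x0 + Lam β τ * y) (hasFDerivAt_aff (Lam β τ)⁻¹ x0 (x0 + Lam β τ * y))
  rw [e.fderiv_eq]
  have := hc.fderiv
  have e3 : (R ∘ fun x => (x - x0) * (Lam β τ)⁻¹) = fun x => R ((x - x0) * (Lam β τ)⁻¹) := rfl
  rw [e3] at this
  rw [this, e2]
  rfl

theorem fderiv_u (hU : ContDiff ℝ 2 U) (hs : SelfSimilar T0 T x0 r ρ u β R U) {τ : ℝ} (h1 : 0 < τ)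
    (h2 : τ < T - T0) {y : ℂ} (hy : ‖Lam β τ‖ * ‖y‖ < r) (v : ℂ) :
    fderiv ℝ (u (T - τ)) (x0 + Lam β τ * y) v =
      (Lam β τ / τ) * fderiv ℝ U y ((Lam β τ)⁻¹ * v) := by
  have hL : Lam β τ ≠ 0 := Lam_ne h1
  have e : u (T - τ) =ᶠ[𝓝 (x0 + Lam β τ * y)] fun x =>
      (Lam β τ / τ) * U ((x - x0) * (Lam β τ)⁻¹) := by
    filter_upwards [isOpen_ball.mem_nhds (mem_ball_of (x0 := x0) hy)] with x hx
    have h := (hs (T - τ) (mem_of h1 h2) x hx).2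
    rwa [show T - (T - τ) = τ by ring, cpow_neg', cpow_sub' h1] at h
  have e2 : (x0 + Lam β τ * y - x0) * (Lam β τ)⁻¹ = y := by
    field_simp
    ring
  have hd := (hU.differentiable two_ne_zero y).hasFDerivAt
  rw [← e2] at hd
  have hc := (hd.comp (x0 + Lam β τ * y)
    (hasFDerivAt_aff (Lam β τ)⁻¹ x0 (x0 + Lam β τ * y))).const_mul (Lam β τ / τ)
  rw [e.fderiv_eq]
  have := hc.fderiv
  simp only [Function.comp_def] at this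
  rw [this, e2]
  rfl

/-- the derivative of a power of `T - s` -/
theorem hasDerivAt_pow_time {τ : ℝ} (h1 : 0 < τ) (γ : ℂ) :
    HasDerivAt (fun s : ℝ => ((T - s : ℝ) : ℂ) ^ γ) (-(γ * ((τ : ℝ) : ℂ) ^ (γ - 1))) (T - τ) := by
  have hin : HasDerivAt (fun z : ℂ => (T : ℂ) - z) (-1) ((T - τ : ℝ) : ℂ) := by
    simpa using (hasDerivAt_id ((T - τ : ℝ) : ℂ)).const_sub (T : ℂ)
  have hval : (T : ℂ) - ((T - τ : ℝ) : ℂ) = (τ : ℂ) := by push_cast; ring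
  have hsl : (T : ℂ) - ((T - τ : ℝ) : ℂ) ∈ slitPlane := by
    rw [hval, ofReal_mem_slitPlane]
    exact h1
  have h := (hin.cpow_const (c := γ) hsl).comp_ofReal
  rw [hval] at h
  have e : (fun s : ℝ => ((T - s : ℝ) : ℂ) ^ γ) = fun s : ℝ => ((T : ℂ) - (s : ℂ)) ^ γ := by
    funext s
    push_cast
    rfl
  rw [e]
  refine h.congr_deriv ?_
  ring

/-- the time derivatives -/
theorem deriv_rho (hR : ContDiff ℝ 2 R) (hs : SelfSimilar T0 T x0 r ρ u β R U) {τ : ℝ} (h1 : 0 < τ)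
    (h2 : τ < T - T0) {y : ℂ} (hy : ‖Lam β τ‖ * ‖y‖ < r) :
    deriv (fun s => ρ s (x0 + Lam β τ * y)) (T - τ) = fderiv ℝ R y (β * y / τ) := by
  have hL : Lam β τ ≠ 0 := Lam_ne h1
  have hτ : (τ : ℂ) ≠ 0 := by exact_mod_cast h1.ne'
  have e : (fun s => ρ s (x0 + Lam β τ * y)) =ᶠ[𝓝 (T - τ)] fun s =>
      R ((x0 + Lam β τ * y - x0) * ((T - s : ℝ) : ℂ) ^ (-β)) := by
    filter_upwards [isOpen_Ioo.mem_nhds (mem_of (T0 := T0) (T := T) h1 h2)] with s hs'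
    exact (hs s hs' _ (mem_ball_of hy)).1
  have hw := (hasDerivAt_pow_time (T := T) h1 (-β)).const_mul (x0 + Lam β τ * y - x0)
  have e2 : (x0 + Lam β τ * y - x0) * ((T - (T - τ) : ℝ) : ℂ) ^ (-β) = y := by
    rw [show T - (T - τ) = τ by ring, cpow_neg']
    field_simp
    ring
  have hd := (hR.differentiable two_ne_zero y).hasFDerivAt
  have hd' : HasFDerivAt R (fderiv ℝ R y)
      ((x0 + Lam β τ * y - x0) * ((T - (T - τ) : ℝ) : ℂ) ^ (-β)) := by rw [e2]; exact hd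
  have hc := hd'.comp_hasDerivAt (T - τ) hw
  rw [e.deriv_eq]
  have := hc.deriv
  simp only [Function.comp_def] at this
  rw [this]
  congr 1
  rw [cpow_sub _ _ hτ, cpow_neg', cpow_one]
  field_simp
  ring

theorem deriv_u (hU : ContDiff ℝ 2 U) (hs : SelfSimilar T0 T x0 r ρ u β R U) {τ : ℝ} (h1 : 0 < τ)
    (h2 : τ < T - T0) {y : ℂ} (hy : ‖Lam β τ‖ * ‖y‖ < r) :
    deriv (fun s => u s (x0 + Lam β τ * y)) (T - τ) =
      (Lam β τ / τ ^ 2) * ((1 - β) * U y + fderiv ℝ U y (β * y)) := by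
  have hL : Lam β τ ≠ 0 := Lam_ne h1
  have hτ : (τ : ℂ) ≠ 0 := by exact_mod_cast h1.ne'
  have e : (fun s => u s (x0 + Lam β τ * y)) =ᶠ[𝓝 (T - τ)] fun s =>
      ((T - s : ℝ) : ℂ) ^ (β - 1) * U ((x0 + Lam β τ * y - x0) * ((T - s : ℝ) : ℂ) ^ (-β)) := by
    filter_upwards [isOpen_Ioo.mem_nhds (mem_of (T0 := T0) (T := T) h1 h2)] with s hs'
    exact (hs s hs' _ (mem_ball_of hy)).2
  have hw := (hasDerivAt_pow_time (T := T) h1 (-β)).const_mul (x0 + Lam β τ * y - x0)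
  have e2 : (x0 + Lam β τ * y - x0) * ((T - (T - τ) : ℝ) : ℂ) ^ (-β) = y := by
    rw [show T - (T - τ) = τ by ring, cpow_neg']
    field_simp
    ring
  have hd := (hU.differentiable two_ne_zero y).hasFDerivAt
  have hd' : HasFDerivAt U (fderiv ℝ U y)
      ((x0 + Lam β τ * y - x0) * ((T - (T - τ) : ℝ) : ℂ) ^ (-β)) := by rw [e2]; exact hd
  have hc := (hasDerivAt_pow_time (T := T) h1 (β - 1)).mul (hd'.comp_hasDerivAt (T - τ) hw)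
  rw [e.deriv_eq]
  have := hc.deriv
  simp only [Function.comp_def] at this
  have e4 : (fun s : ℝ => ((T - s : ℝ) : ℂ) ^ (β - 1)) * (fun s : ℝ =>
      U ((x0 + Lam β τ * y - x0) * ((T - s : ℝ) : ℂ) ^ (-β))) = fun s : ℝ =>
      ((T - s : ℝ) : ℂ) ^ (β - 1) * U ((x0 + Lam β τ * y - x0) * ((T - s : ℝ) : ℂ) ^ (-β)) := rfl
  rw [e4] at this
  rw [this, e2]
  have e5 : (x0 + Lam β τ * y - x0) * -(-β * ((τ : ℝ) : ℂ) ^ (-β - 1)) = (1 / τ : ℝ) • (β * y) := by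
    rw [cpow_sub _ _ hτ, cpow_neg', cpow_one, real_smul]
    push_cast
    field_simp
    ring
  have e6 : ((τ : ℝ) : ℂ) ^ (β - 1) = Lam β τ / τ := cpow_sub' h1
  have e7 : ((τ : ℝ) : ℂ) ^ (β - 1 - 1) = Lam β τ / τ / τ := by
    rw [cpow_sub _ _ hτ, e6, cpow_one]
  rw [e5, map_smul, real_smul, show T - (T - τ) = τ by ring, e7, e6]
  push_cast
  field_simp
  ring

end main

end Pool.Agent.Lib.MP_6c0de8_an
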